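import Pool.Agent.Work.MP_79d924_lc.FS.Defs

/-!
MODULE Bas (S-M).  Basic facts on `rr`.

`sum_rr`: group the pairs `(x, y) ∈ F × F` by `z = x + y` (for given `z` the pairs are `(x, x + z)`, as the group has
exponent 2).
`conv`: `rr F (x + t) = ∑_{b ∈ F} ind F (b + (x + t))`, substitute `t = b + x + a` (`a ∈ F`):
`∑_t rr F (x + t) rr F (t + y) = ∑_{a ∈ F} ∑_{b ∈ F} rr F (a + b + x + y)`.
-/

set_option autoImplicit false

namespace Pool.Agent.Work.MP_79d924_lc.FS

open Finset

variable {G : Type} [AddCommGroup G] [Fintype G] [DecidableEq G]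

theorem rr_nonneg (F : Finset G) (z : G) : 0 ≤ rr F z := by
  unfold rr
  exact Nat.cast_nonneg _

theorem rr_le (F : Finset G) (z : G) : rr F z ≤ F.card := by
  unfold rr
  exact_mod_cast card_filter_le _ _

theorem rr_zero (F : Finset G) : rr F 0 = F.card := by
  unfold rr
  congr 2
  ext y
  simp

theorem rr_eq (F : Finset G) (z : G) : rr F z = ∑ b ∈ F, ind F (b + z) := by
  unfold rr ind
  rw [Finset.sum_boole]

private theorem sum_ind (F : Finset G) (h : G → ℝ) : ∑ y, ind F y * h y = ∑ y ∈ F, h y := by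
  unfold ind
  simp only [ite_mul, one_mul, zero_mul]
  rw [← Finset.sum_filter]
  congr 1
  ext y
  simp

theorem sum_rr (two : ∀ x : G, x + x = 0) (F : Finset G) (g : G → ℝ) :
    ∑ x ∈ F, ∑ y ∈ F, g (x + y) = ∑ z, rr F z * g z := by
  have h : ∀ b : G, ∑ z, ind F (b + z) * g z = ∑ y ∈ F, g (b + y) := by
    intro b
    rw [← sum_ind F (fun y => g (b + y))]
    refine Fintype.sum_equiv (Equiv.addLeft b) _ _ fun z => ?_
    rw [Equiv.coe_addLeft]
    congr 2
    rw [← add_assoc, two, zero_add]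
  have h2 : ∀ z, rr F z * g z = ∑ b ∈ F, ind F (b + z) * g z := by
    intro z
    rw [← Finset.sum_mul, ← rr_eq]
  rw [Finset.sum_congr rfl fun z _ => h2 z]
  rw [Finset.sum_comm (s := univ) (t := F)]
  exact Finset.sum_congr rfl fun b _ => (h b).symm

theorem conv (two : ∀ x : G, x + x = 0) (F : Finset G) (x y : G) :
    ∑ t, rr F (x + t) * rr F (t + y) = ∑ a ∈ F, ∑ b ∈ F, rr F (a + (x + y) + b) := by
  have h : ∀ b : G, ∑ t, ind F (b + (x + t)) * rr F (t + y) = ∑ a ∈ F, rr F (a + (x + y) + b) := by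
    intro b
    rw [← sum_ind F (fun a => rr F (a + (x + y) + b))]
    refine Fintype.sum_equiv (Equiv.addLeft (b + x)) _ _ fun t => ?_
    rw [Equiv.coe_addLeft]
    have e1 : b + (x + t) = b + x + t := by abel
    have e2 : b + x + t + (x + y) + b = t + y := by
      calc b + x + t + (x + y) + b = (b + b) + (x + x) + (t + y) := by abel
        _ = t + y := by rw [two, two, zero_add, zero_add]
    rw [e1, e2]
  have h2 : ∀ t, rr F (x + t) * rr F (t + y) = ∑ b ∈ F, ind F (b + (x + t)) * rr F (t + y) := by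
    intro t
    rw [← Finset.sum_mul, ← rr_eq]
  rw [Finset.sum_congr rfl fun t _ => h2 t, Finset.sum_comm, Finset.sum_congr rfl fun b _ => h b,
    Finset.sum_comm]

end Pool.Agent.Work.MP_79d924_lc.FS
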