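import Pool.Agent.Work.MP_79d924_lc.FS.TKA

/-!
MODULE Clu (M).  The cluster of an (almost) maximal vertex.

Write `x = x0`, `c = ε m / N`, `D(x,y) = T(x,y) + c - K(x,y) ≥ 0`, `∑_{y ∈ F} D(x,y) ≤ ε m^2`, `κ = 1/1000`.
From `small`: `ε m^3 ≤ 2^(-24)`, so `θ ≤ 9/2^24`, and `1/N ≤ (1 + 2θ) M`, `M > 0`.
(1) `K(x,y) ≤ (K(x,x) + K(y,y))/2 ≤ (1 + θ) M` for `y ∈ F` (`KK_am`).
(2) `∑_y K(x,y)^2 = ∑_y K(x,y)(T(x,y) + c - D(x,y)) ≥ ∑_y K(x,y) T(x,y) - (1+θ) M ε m^2` and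
`∑_y K(x,y) T(x,y) = ∑_y (T + c - D) T ≥ ∑_y T(x,y)^2 - (m/N) ε m^2 = M - ε m^3 / N` (`TT_le`, `K(x,x) = M`).
(3) hence `∑_{y ∈ F} K(x,y) ((1+θ) M - K(x,y)) ≤ M (θ + 6 ε m^3) ≤ κ^2 M` (`15 / 2^24 ≤ 10^(-6)`), all terms `≥ 0`.
(4) `C = {y ∈ F | K(x,y) ≥ (1-κ) M}`.  For `y ∈ F \ C`: `(1+θ) M - K(x,y) ≥ κ M`, so `∑_{F \ C} K(x,y) ≤ κ`,
`∑_C K(x,y) ≥ (1+ε)^2 - κ ≥ 1 - κ` and `|C| (1+θ) M ≥ 1 - κ`: `|C| M ≥ 1 - 2κ`.
(5) for `y ∈ C`: `∑_{t ∈ F} (T(x,t) - T(y,t))^2 = K(x,x) + K(y,y) - 2 K(x,y) ≤ (θ + 2κ) M` and so `K(y,y) ≥ (1 - 2κ) M`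
(the sum is `≥ 0`).
(6) for `y, w ∈ C`: `∑ (T(y,t) - T(w,t))^2 ≤ 2 ∑ (T(y,t) - T(x,t))^2 + 2 ∑ (T(x,t) - T(w,t))^2 ≤ 4 (θ + 2κ) M`, so
`K(y,w) ≥ (1 - 2κ - 4κ - 2θ) M`, and `T(y,w) ≥ K(y,w) - c ≥ (1 - 7κ) M` (`KK_le`, `c ≤ ε m (1+2θ) M`).
-/

set_option autoImplicit false

namespace Pool.Agent.Work.MP_79d924_lc.FS

open Finset

variable {G : Type} [AddCommGroup G] [Fintype G] [DecidableEq G] {F : Finset G} {N m ε : ℝ}

/-- the squared distance of two rows -/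
private theorem dist_eq (F : Finset G) (N : ℝ) (x y : G) :
    ∑ t ∈ F, (TT F N x t - TT F N y t) ^ 2 = KK F N x x + KK F N y y - 2 * KK F N x y := by
  unfold KK
  rw [← Finset.sum_add_distrib, Finset.mul_sum, ← Finset.sum_sub_distrib]
  refine Finset.sum_congr rfl (fun t _ => ?_)
  rw [TT_comm F N t x, TT_comm F N t y]
  ring

private theorem sqsum (F : Finset G) (N : ℝ) (x : G) :
    ∑ y ∈ F, TT F N x y ^ 2 = KK F N x x := by
  unfold KK
  refine Finset.sum_congr rfl (fun t _ => ?_)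
  rw [TT_comm F N t x]
  ring

theorem cluster (h : Core F N m ε) {x0 : G} (hx : x0 ∈ F) {M θ : ℝ} (hM : KK F N x0 x0 = M)
    (hθ0 : 0 ≤ θ) (hθ : θ ≤ 9 * m ^ 3 * ε) (hmax : ∀ y ∈ F, KK F N y y ≤ (1 + θ) * M)
    (hMN : 1 - θ ≤ M * N) :
    ∃ C : Finset G, C ⊆ F ∧ x0 ∈ C ∧ 998 / 1000 ≤ (C.card : ℝ) * M ∧
      ∀ y ∈ C, ∀ w ∈ C, 993 / 1000 * M ≤ TT F N y w := by
  have hN := h.Npos
  have hm := h.m1
  have he := h.eps0
  have hsm := h.small
  -- numerical facts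
  obtain ⟨η, hη⟩ : ∃ η : ℝ, η = m ^ 3 * ε := ⟨_, rfl⟩
  have hη0 : 0 ≤ η := by rw [hη]; positivity
  have hη1 : η ≤ 1 / 16777216 := by
    have : (2 : ℝ) ^ 24 * η ≤ 1 := by rw [hη]; nlinarith [hsm]
    norm_num at this
    linarith
  have hθ9 : θ ≤ 9 * η := by rw [hη]; linarith
  have hm2 : (1 : ℝ) ≤ m ^ 2 := one_le_pow₀ hm
  have hm23 : m ^ 2 ≤ m ^ 3 := pow_le_pow_right₀ hm (by norm_num)
  have hεη : ε ≤ η := by
    rw [hη]
    have : (1 : ℝ) ≤ m ^ 3 := one_le_pow₀ hm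
    nlinarith
  have hε2 : ε * m ^ 2 ≤ η := by
    rw [hη]; nlinarith
  have hε1 : ε * m ≤ η := by
    rw [hη]
    have : m ≤ m ^ 3 := by nlinarith
    nlinarith
  have hM0 : 0 < M := by
    by_contra hcon
    have hle : M ≤ 0 := not_lt.mp hcon
    have : M * N ≤ 0 := mul_nonpos_of_nonpos_of_nonneg hle hN.le
    linarith
  have hNinv : 1 / N ≤ (1 + 2 * θ) * M := by
    rw [div_le_iff₀ hN]
    have h1 : (1 + 2 * θ) * (1 - θ) ≤ (1 + 2 * θ) * (M * N) :=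
      mul_le_mul_of_nonneg_left hMN (by linarith)
    nlinarith
  -- D
  have hD0 : ∀ y, 0 ≤ TT F N x0 y + ε * m / N - KK F N x0 y := by
    intro y
    have := KK_le h x0 y
    linarith
  have hDs := dl_row h hx
  have hK0 : ∀ y, 0 ≤ KK F N x0 y := fun y => KK_nonneg F N x0 y
  have hT0 : ∀ y, 0 ≤ TT F N x0 y := fun y => TT_nonneg F N x0 y
  have hc0 : 0 ≤ ε * m / N := by positivity
  -- (1)
  have h1 : ∀ y ∈ F, KK F N x0 y ≤ (1 + θ) * M := by
    intro y hy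
    have := KK_am F N x0 y
    have h2 := hmax y hy
    rw [hM] at this
    nlinarith
  -- (2)
  have h2a : ∑ y ∈ F, KK F N x0 y * TT F N x0 y - (1 + θ) * M * (ε * m ^ 2) ≤
      ∑ y ∈ F, KK F N x0 y ^ 2 := by
    have hterm : ∀ y ∈ F, KK F N x0 y * TT F N x0 y -
        (1 + θ) * M * (TT F N x0 y + ε * m / N - KK F N x0 y) ≤ KK F N x0 y ^ 2 := by
      intro y hy
      have ha := mul_le_mul_of_nonneg_right (h1 y hy) (hD0 y)
      have hb := mul_nonneg (hK0 y) hc0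
      nlinarith
    have hs := Finset.sum_le_sum hterm
    rw [Finset.sum_sub_distrib, ← Finset.mul_sum] at hs
    have hpos : 0 ≤ (1 + θ) * M := by positivity
    have := mul_le_mul_of_nonneg_left hDs hpos
    linarith
  have h2b : M - m / N * (ε * m ^ 2) ≤ ∑ y ∈ F, KK F N x0 y * TT F N x0 y := by
    have hterm : ∀ y ∈ F, TT F N x0 y ^ 2 -
        m / N * (TT F N x0 y + ε * m / N - KK F N x0 y) ≤ KK F N x0 y * TT F N x0 y := by
      intro y hy
      have ha := mul_le_mul_of_nonneg_right (TT_le h x0 y) (hD0 y)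
      have hb := mul_nonneg (hT0 y) hc0
      nlinarith
    have hs := Finset.sum_le_sum hterm
    rw [Finset.sum_sub_distrib, ← Finset.mul_sum, sqsum, hM] at hs
    have hpos : 0 ≤ m / N := by positivity
    have := mul_le_mul_of_nonneg_left hDs hpos
    linarith
  have h2c : m / N * (ε * m ^ 2) ≤ (1 + 2 * θ) * M * η := by
    have e1 : m / N * (ε * m ^ 2) = 1 / N * η := by
      rw [hη]
      ring
    rw [e1]
    exact mul_le_mul_of_nonneg_right hNinv hη0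
  -- (3)
  have h3 : ∑ y ∈ F, KK F N x0 y * ((1 + θ) * M - KK F N x0 y) ≤ 1 / 1000000 * M := by
    have e1 : ∑ y ∈ F, KK F N x0 y * ((1 + θ) * M - KK F N x0 y) =
        (1 + θ) * M * (1 + ε) ^ 2 - ∑ y ∈ F, KK F N x0 y ^ 2 := by
      rw [← KK_row h hx, Finset.mul_sum, ← Finset.sum_sub_distrib]
      refine Finset.sum_congr rfl (fun y _ => ?_)
      ring
    rw [e1]
    have hk : (1 + θ) * M * (ε * m ^ 2) ≤ (1 + θ) * M * η :=
      mul_le_mul_of_nonneg_left hε2 (by positivity)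
    have hmain : (1 + θ) * (1 + ε) ^ 2 - 1 + (1 + 2 * θ) * η + (1 + θ) * η ≤ 1 / 1000000 := by
      have hε16 : ε ≤ 1 / 16777216 := hεη.trans hη1
      have hθ16 : θ ≤ 9 / 16777216 := by linarith
      have ha : (1 + ε) ^ 2 ≤ 1 + 3 * ε := by nlinarith
      have hb : (1 + θ) * (1 + ε) ^ 2 ≤ (1 + θ) * (1 + 3 * ε) :=
        mul_le_mul_of_nonneg_left ha (by linarith)
      have hc : (1 + θ) * (1 + 3 * ε) ≤ 1 + θ + 4 * ε := by nlinarith
      have hd : (1 + 2 * θ) * η ≤ 101 / 100 * η := by nlinarith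
      have hf : (1 + θ) * η ≤ 101 / 100 * η := by nlinarith
      have hg : θ + 4 * ε + 101 / 100 * η + 101 / 100 * η ≤ 16 * η := by linarith
      linarith
    have := mul_le_mul_of_nonneg_right hmain hM0.le
    nlinarith
  have h3n : ∀ y ∈ F, 0 ≤ KK F N x0 y * ((1 + θ) * M - KK F N x0 y) := fun y hy =>
    mul_nonneg (hK0 y) (by linarith [h1 y hy])
  -- (4)
  refine ⟨F.filter (fun y => 999 / 1000 * M ≤ KK F N x0 y), Finset.filter_subset _ _, ?_, ?_, ?_⟩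
  · rw [Finset.mem_filter]
    refine ⟨hx, ?_⟩
    rw [hM]
    linarith
  · have hsplit : ∑ y ∈ F.filter (fun y => 999 / 1000 * M ≤ KK F N x0 y), KK F N x0 y +
        ∑ y ∈ F.filter (fun y => ¬ 999 / 1000 * M ≤ KK F N x0 y), KK F N x0 y =
        (1 + ε) ^ 2 := by
      rw [Finset.sum_filter_add_sum_filter_not, KK_row h hx]
    have hout : 1 / 1000 * M *
        ∑ y ∈ F.filter (fun y => ¬ 999 / 1000 * M ≤ KK F N x0 y), KK F N x0 y ≤
        1 / 1000000 * M := by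
      refine le_trans ?_ h3
      rw [Finset.mul_sum]
      refine le_trans (Finset.sum_le_sum ?_)
        (Finset.sum_le_sum_of_subset_of_nonneg (Finset.filter_subset _ F)
          (f := fun y => KK F N x0 y * ((1 + θ) * M - KK F N x0 y)) (fun y hy _ => h3n y hy))
      intro y hy
      rw [Finset.mem_filter] at hy
      have hlt := not_le.mp hy.2
      have hge : 1 / 1000 * M ≤ (1 + θ) * M - KK F N x0 y := by nlinarith
      have := mul_le_mul_of_nonneg_left hge (hK0 y)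
      linarith
    have hout2 : ∑ y ∈ F.filter (fun y => ¬ 999 / 1000 * M ≤ KK F N x0 y), KK F N x0 y ≤
        1 / 1000 := by
      by_contra hcon
      have hlt := not_le.mp hcon
      have := mul_lt_mul_of_pos_left hlt (show 0 < 1 / 1000 * M by positivity)
      linarith
    have hin : ∑ y ∈ F.filter (fun y => 999 / 1000 * M ≤ KK F N x0 y), KK F N x0 y ≤
        ((F.filter (fun y => 999 / 1000 * M ≤ KK F N x0 y)).card : ℝ) * ((1 + θ) * M) := by
      rw [← nsmul_eq_mul]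
      refine Finset.sum_le_card_nsmul _ _ _ (fun y hy => ?_)
      rw [Finset.mem_filter] at hy
      exact h1 y hy.1
    set c : ℝ := ((F.filter (fun y => 999 / 1000 * M ≤ KK F N x0 y)).card : ℝ)
    have hc0' : 0 ≤ c := Nat.cast_nonneg _
    have hε2' : 1 ≤ (1 + ε) ^ 2 := by nlinarith
    have hkey : 999 / 1000 ≤ c * M * (1 + θ) := by linarith
    by_contra hcon
    have hlt := not_le.mp hcon
    have hcM : 0 ≤ c * M := mul_nonneg hc0' hM0.le
    nlinarith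
  · intro y hy w hw
    rw [Finset.mem_filter] at hy hw
    have hθ16 : θ ≤ 9 / 16777216 := by linarith
    have key : ∀ y ∈ F, 999 / 1000 * M ≤ KK F N x0 y →
        ∑ t ∈ F, (TT F N x0 t - TT F N y t) ^ 2 ≤ (θ + 2 / 1000) * M ∧
          998 / 1000 * M ≤ KK F N y y := by
      intro y hyF hyK
      have e := dist_eq F N x0 y
      have hn : 0 ≤ ∑ t ∈ F, (TT F N x0 t - TT F N y t) ^ 2 :=
        Finset.sum_nonneg (fun t _ => sq_nonneg _)
      rw [e, hM] at hn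
      refine ⟨?_, ?_⟩
      · rw [e, hM]
        have := hmax y hyF
        nlinarith
      · linarith
    obtain ⟨ya, yb⟩ := key y hy.1 hy.2
    obtain ⟨wa, wb⟩ := key w hw.1 hw.2
    have hsum : ∑ t ∈ F, (TT F N y t - TT F N w t) ^ 2 ≤
        2 * ∑ t ∈ F, (TT F N x0 t - TT F N y t) ^ 2 +
          2 * ∑ t ∈ F, (TT F N x0 t - TT F N w t) ^ 2 := by
      rw [Finset.mul_sum, Finset.mul_sum, ← Finset.sum_add_distrib]
      refine Finset.sum_le_sum (fun t _ => ?_)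
      nlinarith [sq_nonneg (TT F N x0 t - TT F N y t + (TT F N x0 t - TT F N w t))]
    rw [dist_eq F N y w] at hsum
    have hKL := KK_le h y w
    have hc : ε * m / N ≤ 2 * η * M := by
      have e1 : ε * m / N = ε * m * (1 / N) := by ring
      rw [e1]
      have h0 : 0 ≤ 1 / N := by positivity
      have ha : ε * m * (1 / N) ≤ η * (1 / N) := mul_le_mul_of_nonneg_right hε1 h0
      have hb : η * (1 / N) ≤ η * ((1 + 2 * θ) * M) := mul_le_mul_of_nonneg_left hNinv hη0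
      have hd : (1 + 2 * θ) * M ≤ 2 * M := by nlinarith
      have hf : η * ((1 + 2 * θ) * M) ≤ η * (2 * M) := mul_le_mul_of_nonneg_left hd hη0
      linarith
    have hθM : θ * M ≤ 9 / 16777216 * M := mul_le_mul_of_nonneg_right hθ16 hM0.le
    have hηM : η * M ≤ 1 / 16777216 * M := mul_le_mul_of_nonneg_right hη1 hM0.le
    linarith

end Pool.Agent.Work.MP_79d924_lc.FS
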