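import Pool.Agent.Work.MP_79d924_lc.FS.TKA

/-!
MODULE Fil (M).  Filling a coset, the size of a coset contained in `F`.

`fill`.  Let `w ∈ y + H`, `E = F ∩ (y + H)`, `|E| ≥ (5/6)|H|`.  For `a ∈ E` we have `w + a ∈ H`, so `b ↦ b + (w + a)` maps `y + H` to itself
and at least `2 |E| - |H| ≥ (2/3) |H|` elements `b ∈ E` have `b + (w + a) ∈ E`.  So
`∑_{a ∈ F} rr (w + a) ≥ (5/6) |H| (2/3) |H| = (5/9) |H|^2 > N^2 ε`; if `w ∉ F` this contradicts `clo`.
`coset_le`.  For `w ∈ y + H ⊆ F`: `|H|^2 ≤ ∑_{a ∈ F} rr (w + a) = N^2 (1 + ε)` (`a` and `b` run through `y + H`).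
`coset_row`.  For `s ∈ H`: `rr s ≥ |H|` (all elements of `y + H`).
(`|cs y H| = |H|`, `y ∈ cs y H` as `y + y = 0 ∈ H`.)
-/

set_option autoImplicit false

namespace Pool.Agent.Work.MP_79d924_lc.FS

open Finset

variable {G : Type} [AddCommGroup G] [Fintype G] [DecidableEq G] {F : Finset G} {N m ε : ℝ}

theorem cs_card (y : G) (H : Finset G) : (cs y H).card = H.card := by
  have h : cs y H = H.map (Equiv.subRight y).toEmbedding := by
    ext x
    simp only [cs, mem_filter, mem_univ, true_and, mem_map, Equiv.toEmbedding_apply,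
      Equiv.subRight_apply]
    constructor
    · intro hx
      exact ⟨x + y, hx, by abel⟩
    · rintro ⟨a, ha, rfl⟩
      simpa using ha
  rw [h, card_map]

private theorem mem_cs {x y : G} {H : Finset G} : x ∈ cs y H ↔ x + y ∈ H := by
  simp [cs]

/-- translation by an element of `H` maps the coset to itself -/
private theorem add_mem_cs {H : Finset G} (hH : IsSub H) {x y s : G} (hx : x ∈ cs y H)
    (hs : s ∈ H) : x + s ∈ cs y H := by
  rw [mem_cs] at hx ⊢
  have h := hH.2 _ hx _ hs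
  have e : x + s + y = x + y + s := by abel
  rw [e]
  exact h

private theorem sum_mem_of_cs (two : ∀ x : G, x + x = 0) {H : Finset G} (hH : IsSub H) {x w y : G}
    (hx : x ∈ cs y H) (hw : w ∈ cs y H) : w + x ∈ H := by
  rw [mem_cs] at hx hw
  have h := hH.2 _ hw _ hx
  have e : w + y + (x + y) = w + x := by
    calc w + y + (x + y) = (y + y) + (w + x) := by abel
      _ = w + x := by rw [two, zero_add]
  rw [e] at h
  exact h

/-- the number of elements `b` of `E` with `b + s` in `E` -/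
private theorem two_card_sub (two : ∀ x : G, x + x = 0) {H : Finset G} (hH : IsSub H) {y s : G}
    (hs : s ∈ H) (F : Finset G) :
    2 * ((F ∩ cs y H).card : ℝ) - H.card ≤ rr F s := by
  classical
  set E := F ∩ cs y H with hE
  -- E' = E + s
  set E' := E.map (Equiv.addRight s).toEmbedding with hE'
  have hsub : E ∪ E' ⊆ cs y H := by
    intro x hx
    rw [mem_union] at hx
    rcases hx with hx | hx
    · rw [hE] at hx
      exact (mem_inter.mp hx).2
    · rw [hE', mem_map] at hx
      obtain ⟨a, ha, rfl⟩ := hx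
      rw [hE] at ha
      exact add_mem_cs hH (mem_inter.mp ha).2 hs
  have hcardU : (E ∪ E').card ≤ H.card := by
    rw [← cs_card y H]
    exact card_le_card hsub
  have hcardE' : E'.card = E.card := by
    rw [hE', card_map]
  have hinter : (E ∩ E').card ≤ (F.filter (fun b => b + s ∈ F)).card := by
    apply card_le_card
    intro x hx
    rw [mem_inter] at hx
    obtain ⟨hx1, hx2⟩ := hx
    rw [hE', mem_map] at hx2
    obtain ⟨a, ha, hax⟩ := hx2
    have hax' : a + s = x := hax
    rw [mem_filter]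
    refine ⟨(mem_inter.mp hx1).1, ?_⟩
    have e : x + s = a := by
      rw [← hax', add_assoc, two, add_zero]
    rw [e]
    exact (mem_inter.mp ha).1
  have hie := card_union_add_card_inter E E'
  have h3 : 2 * E.card ≤ H.card + (F.filter (fun b => b + s ∈ F)).card := by
    omega
  have h4 : 2 * (E.card : ℝ) ≤ H.card + ((F.filter (fun b => b + s ∈ F)).card : ℝ) := by
    exact_mod_cast h3
  unfold rr
  linarith

theorem fill (h : Core F N m ε) {H : Finset G} (hH : IsSub H) {y : G}
    (hy : 5 / 6 * (H.card : ℝ) ≤ ((F ∩ cs y H).card : ℝ))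
    (hb : N ^ 2 * ε < 5 / 9 * (H.card : ℝ) ^ 2) : cs y H ⊆ F := by
  intro w hw
  by_contra hwF
  have hclo := h.clo w
  have hind : ind F w = 0 := by
    unfold ind
    rw [if_neg hwF]
  rw [hind, zero_add] at hclo
  have hHn : (0 : ℝ) ≤ H.card := Nat.cast_nonneg _
  have h1 : ∑ a ∈ F ∩ cs y H, rr F (w + a) ≤ ∑ a ∈ F, rr F (w + a) :=
    Finset.sum_le_sum_of_subset_of_nonneg inter_subset_left (fun a _ _ => rr_nonneg F _)
  have h2 : ∑ a ∈ F ∩ cs y H, (2 / 3 * (H.card : ℝ)) ≤ ∑ a ∈ F ∩ cs y H, rr F (w + a) := by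
    refine Finset.sum_le_sum (fun a ha => ?_)
    have hs := sum_mem_of_cs h.two hH (mem_inter.mp ha).2 hw
    have h3 := two_card_sub (y := y) h.two hH hs F
    linarith
  rw [Finset.sum_const, nsmul_eq_mul] at h2
  have h4 : 5 / 9 * (H.card : ℝ) ^ 2 ≤ ((F ∩ cs y H).card : ℝ) * (2 / 3 * (H.card : ℝ)) := by
    nlinarith [mul_le_mul_of_nonneg_right hy hHn]
  linarith

theorem coset_row (h : Core F N m ε) {H : Finset G} (hH : IsSub H) {y : G} (hy : cs y H ⊆ F)
    {s : G} (hs : s ∈ H) : (H.card : ℝ) ≤ rr F s := by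
  have h1 := two_card_sub (y := y) h.two hH hs F
  have h2 : F ∩ cs y H = cs y H := inter_eq_right.mpr hy
  rw [h2, cs_card] at h1
  linarith

theorem coset_le (h : Core F N m ε) {H : Finset G} (hH : IsSub H) {y : G} (hy : cs y H ⊆ F) :
    (H.card : ℝ) ^ 2 ≤ N ^ 2 * (1 + ε) := by
  have hy0 : y ∈ cs y H := by
    rw [mem_cs, h.two]
    exact hH.1
  have hclo := h.clo y
  have hind : ind F y = 1 := by
    unfold ind
    rw [if_pos (hy hy0)]
  rw [hind] at hclo
  have h1 : ∑ a ∈ cs y H, rr F (y + a) ≤ ∑ a ∈ F, rr F (y + a) :=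
    Finset.sum_le_sum_of_subset_of_nonneg hy (fun a _ _ => rr_nonneg F _)
  have h2 : ∑ a ∈ cs y H, (H.card : ℝ) ≤ ∑ a ∈ cs y H, rr F (y + a) := by
    refine Finset.sum_le_sum (fun a ha => ?_)
    exact coset_row h hH hy (sum_mem_of_cs h.two hH ha hy0)
  rw [Finset.sum_const, nsmul_eq_mul, cs_card] at h2
  nlinarith

end Pool.Agent.Work.MP_79d924_lc.FS
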