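import Pool.Agent.Work.MP_79d924_lc.FS.Pw2
import Pool.Agent.Work.MP_79d924_lc.FS.Fil

/-!
MODULE Dis (S-M).  Different cosets of size `N` contained in `F` are disjoint.

If `H₁ ≠ H₂` (equal cardinality) then `H₁ ⊄ H₂` and `|H₁ ∩ H₂| ≤ N/2` (`sub_inter_le`).  For `a, b ∈ x + H_i` we have `b + (x + a) ∈ x + H_i ⊆ F`.
So `∑_{a ∈ F} rr (x + a) ≥ |(P₁ × P₁) ∪ (P₂ × P₂)| = N^2 + N^2 - |P₁ ∩ P₂|^2 ≥ (7/4) N^2` with `P_i = x + H_i`, `P₁ ∩ P₂ = x + (H₁ ∩ H₂)`, but the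
sum is `N^2 (1 + ε)` by `clo`.
-/

set_option autoImplicit false

namespace Pool.Agent.Work.MP_79d924_lc.FS

open Finset

variable {G : Type} [AddCommGroup G] [Fintype G] [DecidableEq G] {F : Finset G} {N m ε : ℝ}

private theorem mem_csD {x y : G} {H : Finset G} : x ∈ cs y H ↔ x + y ∈ H := by
  simp [cs]

private theorem csD_step (two : ∀ x : G, x + x = 0) {H : Finset G} (hH : IsSub H) {x a b : G}
    (ha : a ∈ cs x H) (hb : b ∈ cs x H) : b + (x + a) ∈ cs x H := by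
  rw [mem_csD] at ha hb ⊢
  have e : b + (x + a) + x = (b + x) + (a + x) := by
    have e1 : (b + x) + (a + x) = b + (x + a) + x := by abel
    rw [e1]
  rw [e]
  exact hH.2 _ hb _ ha

theorem flat_unique (h : Core F N m ε) {H₁ H₂ : Finset G} (h1 : IsSub H₁) (h2 : IsSub H₂)
    (hN1 : (H₁.card : ℝ) = N) (hN2 : (H₂.card : ℝ) = N) {x : G} (hx1 : cs x H₁ ⊆ F)
    (hx2 : cs x H₂ ⊆ F) : H₁ = H₂ := by
  by_contra hne
  have hcard : H₁.card = H₂.card := by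
    have h3 : (H₁.card : ℝ) = H₂.card := by rw [hN1, hN2]
    exact_mod_cast h3
  have hns : ¬ H₁ ⊆ H₂ := fun hs => hne (Finset.eq_of_subset_of_card_le hs hcard.ge)
  have hhalf : 2 * ((H₁ ∩ H₂).card : ℝ) ≤ N := by
    rw [← hN1]
    exact_mod_cast sub_inter_le h.two h1 h2 hns
  set P₁ := cs x H₁ with hP1
  set P₂ := cs x H₂ with hP2
  have hJ : P₁ ∩ P₂ = cs x (H₁ ∩ H₂) := by
    ext y
    rw [mem_inter, hP1, hP2, mem_csD, mem_csD, mem_csD, mem_inter]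
  have hJc : ((P₁ ∩ P₂).card : ℝ) = (H₁ ∩ H₂).card := by
    rw [hJ, cs_card]
  have hP1c : (P₁.card : ℝ) = N := by rw [hP1, cs_card, hN1]
  have hP2c : (P₂.card : ℝ) = N := by rw [hP2, cs_card, hN2]
  have hU : ((P₁ ∪ P₂).card : ℝ) + (P₁ ∩ P₂).card = 2 * N := by
    have h3 := Finset.card_union_add_card_inter P₁ P₂
    have h4 : ((P₁ ∪ P₂).card : ℝ) + (P₁ ∩ P₂).card = P₁.card + P₂.card := by exact_mod_cast h3
    rw [h4, hP1c, hP2c]
    ring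
  have hxF : x ∈ F := hx1 (by rw [hP1, mem_csD, h.two]; exact h1.1)
  have hclo := h.clo x
  have hind : ind F x = 1 := by
    unfold ind
    rw [if_pos hxF]
  rw [hind] at hclo
  have hnn : ∀ z, 0 ≤ rr F z := fun z => by unfold rr; positivity
  have hUF : P₁ ∪ P₂ ⊆ F := Finset.union_subset hx1 hx2
  have s1 : ∑ a ∈ P₁ ∪ P₂, rr F (x + a) ≤ ∑ a ∈ F, rr F (x + a) :=
    Finset.sum_le_sum_of_subset_of_nonneg hUF (fun a _ _ => hnn _)
  have hJU : P₁ ∩ P₂ ⊆ P₁ ∪ P₂ := fun y hy => mem_union_left _ (mem_inter.mp hy).1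
  have s2 : ∑ a ∈ (P₁ ∪ P₂) \ (P₁ ∩ P₂), rr F (x + a) + ∑ a ∈ P₁ ∩ P₂, rr F (x + a) =
      ∑ a ∈ P₁ ∪ P₂, rr F (x + a) := Finset.sum_sdiff hJU
  have b1 : ∀ a ∈ P₁, (N : ℝ) ≤ rr F (x + a) := by
    intro a ha
    rw [← hP1c]
    unfold rr
    have : P₁ ⊆ F.filter (fun y => y + (x + a) ∈ F) := by
      intro b hb
      rw [mem_filter]
      exact ⟨hx1 hb, hx1 (csD_step h.two h1 ha hb)⟩
    exact_mod_cast Finset.card_le_card this
  have b2 : ∀ a ∈ P₂, (N : ℝ) ≤ rr F (x + a) := by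
    intro a ha
    rw [← hP2c]
    unfold rr
    have : P₂ ⊆ F.filter (fun y => y + (x + a) ∈ F) := by
      intro b hb
      rw [mem_filter]
      exact ⟨hx2 hb, hx2 (csD_step h.two h2 ha hb)⟩
    exact_mod_cast Finset.card_le_card this
  have b3 : ∀ a ∈ P₁ ∩ P₂, ((P₁ ∪ P₂).card : ℝ) ≤ rr F (x + a) := by
    intro a ha
    rw [mem_inter] at ha
    unfold rr
    have : P₁ ∪ P₂ ⊆ F.filter (fun y => y + (x + a) ∈ F) := by
      intro b hb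
      rw [mem_filter]
      rw [mem_union] at hb
      rcases hb with hb | hb
      · exact ⟨hx1 hb, hx1 (csD_step h.two h1 ha.1 hb)⟩
      · exact ⟨hx2 hb, hx2 (csD_step h.two h2 ha.2 hb)⟩
    exact_mod_cast Finset.card_le_card this
  have s3 : ((P₁ ∩ P₂).card : ℝ) * (P₁ ∪ P₂).card ≤ ∑ a ∈ P₁ ∩ P₂, rr F (x + a) := by
    have h3 := Finset.card_nsmul_le_sum (P₁ ∩ P₂) (fun a => rr F (x + a)) _ b3
    rwa [nsmul_eq_mul] at h3
  have s4 : (((P₁ ∪ P₂) \ (P₁ ∩ P₂)).card : ℝ) * N ≤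
      ∑ a ∈ (P₁ ∪ P₂) \ (P₁ ∩ P₂), rr F (x + a) := by
    have h3 := Finset.card_nsmul_le_sum ((P₁ ∪ P₂) \ (P₁ ∩ P₂)) (fun a => rr F (x + a)) N (by
      intro a ha
      rw [mem_sdiff, mem_union] at ha
      rcases ha.1 with ha1 | ha1
      · exact b1 a ha1
      · exact b2 a ha1)
    rwa [nsmul_eq_mul] at h3
  have s5 : (((P₁ ∪ P₂) \ (P₁ ∩ P₂)).card : ℝ) + (P₁ ∩ P₂).card = (P₁ ∪ P₂).card := by
    exact_mod_cast Finset.card_sdiff_add_card_eq_card hJU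
  have hN := h.Npos
  have hm := h.m1
  have he := h.eps0
  have hsm := h.small
  have he2 : ε ≤ 1 / 2 := by
    have hm3 : (1 : ℝ) ≤ m ^ 3 := one_le_pow₀ hm
    have h3 : 2 ^ 24 * 1 * ε ≤ 2 ^ 24 * m ^ 3 * ε := by
      apply mul_le_mul_of_nonneg_right _ he
      linarith
    linarith
  set I : ℝ := ((P₁ ∩ P₂).card : ℝ) with hI
  have hI0 : 0 ≤ I := by positivity
  have hI2 : 2 * I ≤ N := by rw [hJc]; exact hhalf
  have e1 : ((P₁ ∪ P₂).card : ℝ) = 2 * N - I := by linarith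
  have e2 : (((P₁ ∪ P₂) \ (P₁ ∩ P₂)).card : ℝ) = 2 * N - 2 * I := by linarith
  rw [e1] at s3
  rw [e2] at s4
  have h9 : 2 * N ^ 2 - I ^ 2 ≤ N ^ 2 * (1 + ε) := by
    nlinarith
  nlinarith [mul_pos hN hN]

end Pool.Agent.Work.MP_79d924_lc.FS
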