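import Pool.Agent.Work.MP_79d924_lc.FS.Fil

/-!
MODULE KFl (M).  The diagonal entry of a vertex in a coset of size `N` contained in `F`.

Let `P = x + H ⊆ F`, `|P| = N`.  `∑_{t ∈ F} rr (x + t) = N^2 (1 + ε)` (`clo`), `rr (x + t) ≥ N` for `t ∈ P` (`coset_row`, `x + t ∈ H`) and
`rr ≤ m N` (`rr_le`, `card`).  Put `e_t = rr (x + t) - N ≥ 0` for `t ∈ P`, `e_t = rr (x + t)` for `t ∈ F \ P`; `∑_{t ∈ F} e_t = ε N^2`.
For `t ∈ P`: `rr^2 = N^2 + 2 N e + e^2 ≤ N^2 + 3 m N e` (`e ≤ m N`, `1 ≤ m`), for `t ∈ F \ P`: `rr^2 ≤ m N e ≤ 3 m N e`.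
Sum: `∑_{t ∈ F} rr (x+t)^2 ≤ N^3 + 3 m N ε N^2`, and `K(x,x) = ∑ rr (x+t)^2 / N^4`.
-/

set_option autoImplicit false

namespace Pool.Agent.Work.MP_79d924_lc.FS

open Finset

variable {G : Type} [AddCommGroup G] [Fintype G] [DecidableEq G] {F : Finset G} {N m ε : ℝ}

theorem KK_flat (h : Core F N m ε) {H : Finset G} (hH : IsSub H) (hN : (H.card : ℝ) = N)
    {x : G} (hx : cs x H ⊆ F) : KK F N x x ≤ (1 + 3 * m * ε) / N := by
  have hN0 := h.Npos
  have hm := h.m1
  have hxP : x ∈ cs x H := by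
    unfold cs
    rw [Finset.mem_filter]
    exact ⟨Finset.mem_univ _, by rw [h.two x]; exact hH.1⟩
  have hxF : x ∈ F := hx hxP
  set g : G → ℝ := fun t => rr F (x + t) with hg
  have hg0 : ∀ t, 0 ≤ g t := fun t => rr_nonneg F _
  have hgm : ∀ t, g t ≤ m * N := fun t => by
    rw [← h.card]; exact rr_le F _
  have hgP : ∀ t ∈ cs x H, N ≤ g t := by
    intro t ht
    rw [← hN]
    apply coset_row h hH hx
    unfold cs at ht
    rw [Finset.mem_filter] at ht
    rw [add_comm]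
    exact ht.2
  have hsum : ∑ t ∈ F, g t = N ^ 2 * (1 + ε) := by
    rw [h.clo x]
    unfold ind
    rw [if_pos hxF]
  have hcardP : ((cs x H).card : ℝ) = N := by rw [cs_card, hN]
  have hsplit : ∀ u : G → ℝ, ∑ t ∈ F, u t = ∑ t ∈ cs x H, u t + ∑ t ∈ F \ cs x H, u t := by
    intro u
    rw [← Finset.sum_sdiff hx, add_comm]
  have h1 : ∑ t ∈ cs x H, g t ^ 2 ≤ ∑ t ∈ cs x H, (N ^ 2 + 3 * m * N * (g t - N)) := by
    apply Finset.sum_le_sum
    intro t ht
    have e1 := hgP t ht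
    have e2 := hgm t
    have e3 : 0 ≤ (g t - N) * (m * N - g t) := mul_nonneg (by linarith) (by linarith)
    have e4 : 0 ≤ (g t - N) * (N * (m - 1)) :=
      mul_nonneg (by linarith) (mul_nonneg hN0.le (by linarith))
    have e5 : 0 ≤ (g t - N) * (m * N) := mul_nonneg (by linarith) (by positivity)
    nlinarith
  have h2 : ∑ t ∈ F \ cs x H, g t ^ 2 ≤ ∑ t ∈ F \ cs x H, (3 * m * N * g t) := by
    apply Finset.sum_le_sum
    intro t _
    have e1 := hg0 t
    have e2 := hgm t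
    have e3 : 0 ≤ g t * (m * N - g t) := mul_nonneg e1 (by linarith)
    have e5 : 0 ≤ g t * (m * N) := mul_nonneg e1 (by positivity)
    nlinarith
  have h3 : ∑ t ∈ F, g t ^ 2 ≤ N ^ 3 + 3 * m * N * (N ^ 2 * ε) := by
    rw [hsplit (fun t => g t ^ 2)]
    refine (add_le_add h1 h2).trans (le_of_eq ?_)
    rw [Finset.sum_add_distrib, Finset.sum_const, nsmul_eq_mul, hcardP, ← Finset.mul_sum,
      ← Finset.mul_sum, Finset.sum_sub_distrib, Finset.sum_const, nsmul_eq_mul, hcardP]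
    have := hsplit g
    rw [hsum] at this
    linear_combination (-(3 * m * N)) * this
  have hK : KK F N x x = (∑ t ∈ F, g t ^ 2) / N ^ 4 := by
    unfold KK TT
    rw [Finset.sum_div]
    apply Finset.sum_congr rfl
    intro t _
    have : rr F (t + x) = g t := by rw [hg]; simp only []; rw [add_comm]
    rw [this]
    simp only [hg]
    field_simp
  rw [hK, div_le_div_iff₀ (by positivity) hN0]
  have h4 : (1 + 3 * m * ε) * N ^ 4 = (N ^ 3 + 3 * m * N * (N ^ 2 * ε)) * N := by ring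
  rw [h4]
  exact mul_le_mul_of_nonneg_right h3 hN0.le

end Pool.Agent.Work.MP_79d924_lc.FS
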