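import Pool.Agent.Work.MP_79d924_lc.FS.NF
import Pool.Agent.Work.MP_79d924_lc.FS.KFl
import Pool.Agent.Work.MP_79d924_lc.FS.Dis

/-!
MODULE Cov (M-L).  `F` is a disjoint union of `m` cosets of size `N`.

Let `𝒫` be the finset of all `P = cs x H ⊆ F` with `IsSub H`, `|H| = N` (image of pairs `(x, H)`).  Two members with a common point `x`
are equal (both are `cs x H_i`, `flat_unique`), so `𝒫` is pairwise disjoint and `|⋃ 𝒫| = q N`, `q = |𝒫|`.  Let `U = F \ ⋃ 𝒫`, so
`|U| = (m - q) N`.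
Claim: `U = ∅`.  Otherwise `q < m`, so `q + 1 ≤ m` and `|U| ≥ N`.  By `tr_ge` and `KK_flat`
`∑_{x ∈ U} K(x,x) ≥ m - q N (1 + 3 m ε)/N ≥ (m - q) - 3 m^2 ε ≥ (m - q)(1 - 3 m^2 ε)`; so some `x ∈ U` has
`K(x,x) ≥ (1 - 3 m^2 ε)/N`.  Let `x0 ∈ U` have the largest `K(x0,x0)` in `U`, `θ = 9 m^3 ε`.  For `y ∈ U`: `K(y,y) ≤ K(x0,x0)`; for
`y ∈ F \ U`: `K(y,y) ≤ (1 + 3 m ε)/N ≤ (1 + θ) K(x0,x0)` since `1 + 3 m ε ≤ (1 + 9 m^3 ε)(1 - 3 m^2 ε)` (`small`).  `near_max` gives a
member of `𝒫` which contains `x0` (`x0 + x0 = 0 ∈ H`), a contradiction.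
So `F = ⋃ 𝒫`, `m N = q N`, `q = m`; enumerate `𝒫` by `Fin m`.
-/

set_option autoImplicit false

namespace Pool.Agent.Work.MP_79d924_lc.FS

open Finset

variable {G : Type} [AddCommGroup G] [Fintype G] [DecidableEq G] {F : Finset G} {N ε : ℝ}

private theorem mem_cs {y x : G} {H : Finset G} : x ∈ cs y H ↔ x + y ∈ H := by
  simp [cs]

private theorem self_mem (two : ∀ x : G, x + x = 0) {x : G} {H : Finset G} (hH : IsSub H) :
    x ∈ cs x H := by
  rw [mem_cs, two]
  exact hH.1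

private theorem cs_eq (two : ∀ x : G, x + x = 0) {x y : G} {H : Finset G} (hH : IsSub H)
    (hx : x ∈ cs y H) : cs x H = cs y H := by
  rw [mem_cs] at hx
  ext z
  rw [mem_cs, mem_cs]
  constructor
  · intro h
    have h1 := hH.2 _ h _ hx
    have h2 : z + x + (x + y) = z + y := by
      have := two x
      calc z + x + (x + y) = z + (x + x) + y := by abel
        _ = z + y := by rw [this, add_zero]
    rwa [h2] at h1
  · intro h
    have h1 := hH.2 _ h _ hx
    have h2 : z + y + (x + y) = z + x := by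
      have := two y
      calc z + y + (x + y) = z + x + (y + y) := by abel
        _ = z + x := by rw [this, add_zero]
    rwa [h2] at h1

private theorem card_cs (y : G) (H : Finset G) : (cs y H).card = H.card := by
  refine Finset.card_bij (fun x _ => x + y) (fun x hx => mem_cs.1 hx)
    (fun a _ b _ h => add_right_cancel h) (fun b hb => ⟨b - y, ?_, by simp⟩)
  rw [mem_cs]
  simpa using hb

theorem cover {m : ℕ} (h : Core F N m ε) {b : ℕ} (hb : N = 2 ^ b) :
    ∃ (y : Fin m → G) (H : Fin m → Finset G), (∀ i, IsSub (H i) ∧ ((H i).card : ℝ) = N) ∧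
      (∀ x, x ∈ F ↔ ∃ i, x ∈ cs (y i) (H i)) ∧
      ∀ i j, i ≠ j → Disjoint (cs (y i) (H i)) (cs (y j) (H j)) := by
  classical
  have two := h.two
  have hN := h.Npos
  have hm1 : (1 : ℝ) ≤ m := h.m1
  have he := h.eps0
  have hsm := h.small
  let PP : Finset (Finset G) := univ.filter (fun P => P ⊆ F ∧
    ∃ (x : G) (H : Finset G), IsSub H ∧ (H.card : ℝ) = N ∧ P = cs x H)
  have memPP : ∀ P, P ∈ PP ↔ (P ⊆ F ∧
      ∃ (x : G) (H : Finset G), IsSub H ∧ (H.card : ℝ) = N ∧ P = cs x H) := by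
    intro P
    simp [PP]
  have hcard : ∀ P ∈ PP, (P.card : ℝ) = N := by
    intro P hP
    obtain ⟨_, x, H, _, hc, rfl⟩ := (memPP P).1 hP
    rw [card_cs, hc]
  have hat : ∀ P ∈ PP, ∀ x ∈ P, ∃ H : Finset G, IsSub H ∧ (H.card : ℝ) = N ∧ P = cs x H ∧
      cs x H ⊆ F := by
    intro P hP x hx
    obtain ⟨hPF, y, H, hH, hc, rfl⟩ := (memPP P).1 hP
    have h1 := cs_eq two hH hx
    exact ⟨H, hH, hc, h1.symm, h1 ▸ hPF⟩
  have heq : ∀ P ∈ PP, ∀ P' ∈ PP, ∀ x, x ∈ P → x ∈ P' → P = P' := by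
    intro P hP P' hP' x hx hx'
    obtain ⟨H, hH, hc, h1, h2⟩ := hat P hP x hx
    obtain ⟨H', hH', hc', h1', h2'⟩ := hat P' hP' x hx'
    have h3 := flat_unique h hH hH' hc hc' h2 h2'
    rw [h1, h1', h3]
  have hdis : ∀ P ∈ PP, ∀ P' ∈ PP, P ≠ P' → Disjoint P P' := by
    intro P hP P' hP' hne
    rw [Finset.disjoint_left]
    intro x hx hx'
    exact hne (heq P hP P' hP' x hx hx')
  let W : Finset G := PP.biUnion id
  have hWc : (W.card : ℝ) = PP.card * N := by
    have h1 : W.card = ∑ P ∈ PP, P.card := Finset.card_biUnion hdis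
    rw [h1]
    push_cast
    rw [Finset.sum_congr rfl hcard, Finset.sum_const, nsmul_eq_mul]
  have hWF : W ⊆ F := by
    intro x hx
    obtain ⟨P, hP, hxP⟩ := Finset.mem_biUnion.1 hx
    exact ((memPP P).1 hP).1 hxP
  have hKW : ∀ x ∈ W, KK F N x x ≤ (1 + 3 * m * ε) / N := by
    intro x hx
    obtain ⟨P, hP, hxP⟩ := Finset.mem_biUnion.1 hx
    obtain ⟨H, hH, hc, h1, h2⟩ := hat P hP x hxP
    exact KK_flat h hH hc h2
  have hUc : ((F \ W).card : ℝ) = (m - PP.card) * N := by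
    rw [Finset.card_sdiff_of_subset hWF, Nat.cast_sub (Finset.card_le_card hWF), h.card, hWc]
    ring
  have hU : F \ W = ∅ := by
    by_contra hne
    obtain ⟨u, hu⟩ := Finset.nonempty_iff_ne_empty.2 hne
    have hpos : (0 : ℝ) < (F \ W).card := by
      exact_mod_cast Finset.card_pos.2 ⟨u, hu⟩
    have hlt : (PP.card : ℝ) < m := by
      rw [hUc] at hpos
      by_contra hcon
      push Not at hcon
      have : ((m : ℝ) - PP.card) * N ≤ 0 := mul_nonpos_of_nonpos_of_nonneg (by linarith) hN.le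
      linarith
    have hlt' : (PP.card : ℝ) + 1 ≤ m := by
      have h1 : PP.card < m := by exact_mod_cast hlt
      exact_mod_cast h1
    obtain ⟨x0, hx0U, hx0max⟩ := Finset.exists_max_image (F \ W) (fun x => KK F N x x) ⟨u, hu⟩
    have hx0F : x0 ∈ F := (Finset.mem_sdiff.1 hx0U).1
    have hx0W : x0 ∉ W := (Finset.mem_sdiff.1 hx0U).2
    have hsum : (m : ℝ) ≤ ∑ x ∈ F, KK F N x x := tr_ge h
    have hsplit : ∑ x ∈ F, KK F N x x = ∑ x ∈ F \ W, KK F N x x + ∑ x ∈ W, KK F N x x :=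
      (Finset.sum_sdiff hWF).symm
    have hs1 : ∑ x ∈ W, KK F N x x ≤ PP.card * (1 + 3 * m * ε) := by
      calc ∑ x ∈ W, KK F N x x ≤ ∑ _x ∈ W, (1 + 3 * m * ε) / N := Finset.sum_le_sum hKW
        _ = PP.card * (1 + 3 * m * ε) := by
          rw [Finset.sum_const, nsmul_eq_mul, hWc]
          field_simp
    have hs2 : ∑ x ∈ F \ W, KK F N x x ≤ (m - PP.card) * N * KK F N x0 x0 := by
      calc ∑ x ∈ F \ W, KK F N x x ≤ ∑ _x ∈ F \ W, KK F N x0 x0 :=
            Finset.sum_le_sum hx0max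
        _ = (m - PP.card) * N * KK F N x0 x0 := by
          rw [Finset.sum_const, nsmul_eq_mul, hUc]
    set q : ℝ := (PP.card : ℝ) with hq
    have hq0 : 0 ≤ q := by positivity
    set k : ℝ := KK F N x0 x0 with hk
    have hk0 : 0 ≤ k := KK_nonneg F N x0 x0
    have hkN : 1 - 3 * (m : ℝ) ^ 2 * ε ≤ k * N := by
      have h1 : (m : ℝ) ≤ (m - q) * N * k + q * (1 + 3 * m * ε) := by linarith
      have h2 : (m - q) * (1 - 3 * (m : ℝ) ^ 2 * ε) ≤ (m - q) * (k * N) := by
        have h3 : q * (m * ε) ≤ (m - q) * ((m : ℝ) ^ 2 * ε) := by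
          have h4 : q ≤ (m - q) * m := by nlinarith
          have h5 : 0 ≤ (m : ℝ) * ε := by positivity
          nlinarith [mul_le_mul_of_nonneg_right h4 h5]
        nlinarith
      exact le_of_mul_le_mul_left h2 (by linarith)
    have ht0 : 0 ≤ (m : ℝ) ^ 3 * ε := by positivity
    have ht1 : (m : ℝ) ^ 3 * ε ≤ 1 / 2 ^ 24 := by
      rw [le_div_iff₀ (by norm_num)]
      linarith
    have hm2 : (m : ℝ) ^ 2 * ε ≤ (m : ℝ) ^ 3 * ε := by
      have : (m : ℝ) ^ 3 * ε = m * ((m : ℝ) ^ 2 * ε) := by ring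
      rw [this]
      exact le_mul_of_one_le_left (by positivity) hm1
    have hm3 : (m : ℝ) * ε ≤ (m : ℝ) ^ 3 * ε := by
      have h1 : (m : ℝ) * ε ≤ (m : ℝ) ^ 2 * ε := by
        have : (m : ℝ) ^ 2 * ε = m * ((m : ℝ) * ε) := by ring
        rw [this]
        exact le_mul_of_one_le_left (by positivity) hm1
      linarith
    obtain ⟨H, hH, hHc, hHF⟩ := near_max h hb hx0F (θ := 9 * (m : ℝ) ^ 3 * ε) (by positivity)
      le_rfl (by
        intro y hy
        by_cases hyW : y ∈ W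
        · have h1 := hKW y hyW
          have h2 : (1 + 3 * m * ε) / N ≤ (1 + 9 * (m : ℝ) ^ 3 * ε) * k := by
            rw [div_le_iff₀ hN]
            set t : ℝ := (m : ℝ) ^ 3 * ε with ht
            have h3 : 1 - 3 * t ≤ k * N := by nlinarith
            have h4 : (1 + 9 * t) * (1 - 3 * t) ≤ (1 + 9 * t) * (k * N) :=
              mul_le_mul_of_nonneg_left h3 (by positivity)
            have h5 : 3 * t * (9 * t) ≤ 3 * t := by
              have : 9 * t ≤ 1 := by
                have : (9 : ℝ) / 2 ^ 24 ≤ 1 := by norm_num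
                linarith
              exact mul_le_of_le_one_right (by positivity) this
            nlinarith
          exact h1.trans h2
        · have h1 : KK F N y y ≤ k := hx0max y (Finset.mem_sdiff.2 ⟨hy, hyW⟩)
          nlinarith [mul_nonneg (show 0 ≤ 9 * (m : ℝ) ^ 3 * ε by positivity) hk0])
      (by nlinarith)
    apply hx0W
    refine Finset.mem_biUnion.2 ⟨cs x0 H, (memPP _).2 ⟨hHF, x0, H, hH, hHc, rfl⟩, ?_⟩
    exact self_mem two hH
  have hFW : F = W := Finset.Subset.antisymm (Finset.sdiff_eq_empty_iff_subset.1 hU) hWF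
  have hqm : PP.card = m := by
    rw [hU, Finset.card_empty, Nat.cast_zero] at hUc
    have h1 : (m : ℝ) - PP.card = 0 := by
      rcases mul_eq_zero.1 hUc.symm with h2 | h2
      · exact h2
      · exact absurd h2 hN.ne'
    have h2 : (PP.card : ℝ) = m := by linarith
    exact_mod_cast h2
  let e : Fin m ≃ PP := (Finset.equivFinOfCardEq hqm).symm
  have hex : ∀ i : Fin m, ∃ (x : G) (H : Finset G), IsSub H ∧ (H.card : ℝ) = N ∧
      ((e i : Finset G)) = cs x H := fun i => ((memPP _).1 (e i).2).2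
  choose y H hH hc hP using hex
  refine ⟨y, H, fun i => ⟨hH i, hc i⟩, ?_, ?_⟩
  · intro x
    rw [hFW]
    constructor
    · intro hx
      obtain ⟨P, hPP, hxP⟩ := Finset.mem_biUnion.1 hx
      refine ⟨e.symm ⟨P, hPP⟩, ?_⟩
      rw [← hP, Equiv.apply_symm_apply]
      exact hxP
    · rintro ⟨i, hi⟩
      rw [← hP] at hi
      exact Finset.mem_biUnion.2 ⟨_, (e i).2, hi⟩
  · intro i j hij
    rw [← hP, ← hP]
    apply hdis _ (e i).2 _ (e j).2
    intro h1
    exact hij (e.injective (Subtype.ext h1))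

end Pool.Agent.Work.MP_79d924_lc.FS
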