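import Mathlib

/-!
# MP_79d924_lc, flat spectrum and small density: definitions

THEOREM (flat spectrum).  Let `f` be Boolean on `F_2^n` with `f^(0) = m / 2^k`, all other Fourier
coefficients in `{0, 2^(-k), -2^(-k)}` and `2^24 m^6 ≤ 2^k`.  Then `f` is the indicator function of a
disjoint union of `m` affine subspaces of codimension `k`.

PLAN.  `G` elementary abelian 2-group, `F = f^(-1)(1)`, `N = 2^(n-k)`, `|F| = m N`, `r(z) = |F ∩ (F + z)|`.
Flatness gives the closure identity `∑_{y ∈ F} r(x+y) = N^2 (1_F(x) + ε)`, `ε = (m^3 - m)/2^k`.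
`T(x,y) = r(x+y)/N^2` is then a nonnegative symmetric matrix on `F` with row sums `1 + ε` and
`K = T^2 ≤ T + ε m / N` entrywise, so `T^2` is very close to `T`.  A vertex `x0` with (almost) maximal `K(x0,x0)`
has a cluster `C` in which all `T(y,w) ≥ 0.993 K(x0,x0)`; its triple sums stay in `F` (Pluennecke), then in
`C`, so `C` is close to a coset of a subgroup `H` and the coset is contained in `F`; `|H| = N`.
-/

set_option autoImplicit false

namespace Pool.Agent.Work.MP_79d924_lc.FS

open Finset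

variable {G : Type} [AddCommGroup G] [Fintype G] [DecidableEq G]

/-- The number of `y ∈ F` with `y + z ∈ F`. -/
def rr (F : Finset G) (z : G) : ℝ := ((F.filter (fun y => y + z ∈ F)).card : ℝ)

/-- The indicator function of `F`. -/
def ind (F : Finset G) (x : G) : ℝ := if x ∈ F then 1 else 0

/-- `H` is a subgroup (in a group of exponent 2). -/
def IsSub (H : Finset G) : Prop := 0 ∈ H ∧ ∀ a ∈ H, ∀ b ∈ H, a + b ∈ H

/-- The coset `y + H` (in a group of exponent 2). -/
def cs (y : G) (H : Finset G) : Finset G := univ.filter (fun x => x + y ∈ H)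

/-- The triples of `C` with sum in `S`. -/
def tri (C : Finset G) (S : Finset G) : Finset (G × G × G) :=
  (C ×ˢ C ×ˢ C).filter (fun p => p.1 + p.2.1 + p.2.2 ∈ S)

/-- The matrix `T`. -/
noncomputable def TT (F : Finset G) (N : ℝ) (x y : G) : ℝ := rr F (x + y) / N ^ 2

/-- The matrix `K = T^2`. -/
noncomputable def KK (F : Finset G) (N : ℝ) (x y : G) : ℝ := ∑ t ∈ F, TT F N x t * TT F N t y

/-- The hypotheses. -/
structure Core (F : Finset G) (N m ε : ℝ) : Prop where
  two : ∀ x : G, x + x = 0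
  Npos : 0 < N
  m1 : 1 ≤ m
  eps0 : 0 ≤ ε
  card : (F.card : ℝ) = m * N
  clo : ∀ x : G, ∑ y ∈ F, rr F (x + y) = N ^ 2 * (ind F x + ε)
  cub : m * N ^ 4 ≤ ∑ z, rr F z ^ 3
  sub : ∀ H : Finset G, IsSub H →
    ∑ z ∈ H, rr F z ≤ N ^ 2 * (1 + m ^ 2 * H.card / Fintype.card G)
  big : 4 * m ^ 2 * N ≤ Fintype.card G
  small : 2 ^ 24 * m ^ 3 * ε ≤ 1

end Pool.Agent.Work.MP_79d924_lc.FS
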