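import Pool.Agent.Work.MP_79d924_lc.FS.Bas

/-!
MODULE FoA (M).  Fourier analysis on `Fin n → ZMod 2`.

`ch a x = (-1)^(∑ a_i x_i)`.  `ch_add`: parity of `ZMod.val` of a sum (e.g. via the fact that `(-1)^(z.val)` for `z : ZMod 2` is
multiplicative: `decide` on `ZMod 2`).  `sum_ch`: if `x ≠ 0` choose `i` with `x i = 1` and use the involution `a ↦ a + e_i`.
`sum1`: exchange the sums, `ch a y * ch a x = ch a (y + x)`.  `sum2`, `sum3`: expand the powers of `S F a = ∑_{y ∈ F} ch a y`:
`S^2 ch a z = ∑_{y, y' ∈ F} ch a (y + y' + z)`, sum over `a`: `2^n #{(y,y') | y' = y + z} = 2^n rr F z`; `sum3` from `sum2`: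
`S^3 ch a x = ∑_{y ∈ F} S^2 ch a (x + y)`.
-/

set_option autoImplicit false

namespace Pool.Agent.Work.MP_79d924_lc.FS

open Finset

variable {n : ℕ}

/-- The characters. -/
def ch (a x : Fin n → ZMod 2) : ℝ := (-1 : ℝ) ^ ((∑ i, a i * x i).val)

/-- The character sums. -/
def S (F : Finset (Fin n → ZMod 2)) (a : Fin n → ZMod 2) : ℝ := ∑ x ∈ F, ch a x

private theorem neg_pow_val (z w : ZMod 2) :
    (-1 : ℝ) ^ ((z + w).val) = (-1 : ℝ) ^ (z.val) * (-1 : ℝ) ^ (w.val) := by
  have key : ∀ z w : ZMod 2, (z + w).val % 2 = (z.val + w.val) % 2 := by decide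
  rw [← pow_add, neg_one_pow_eq_pow_mod_two, key z w, ← neg_one_pow_eq_pow_mod_two]

theorem ch_add (a x y : Fin n → ZMod 2) : ch a (x + y) = ch a x * ch a y := by
  unfold ch
  rw [← neg_pow_val, ← Finset.sum_add_distrib]
  have h : ∑ i, a i * (x + y) i = ∑ i, (a i * x i + a i * y i) := by
    refine Finset.sum_congr rfl fun i _ => ?_
    rw [Pi.add_apply, mul_add]
  rw [h]

theorem ch_comm (a x : Fin n → ZMod 2) : ch a x = ch x a := by
  unfold ch
  have h : ∑ i, a i * x i = ∑ i, x i * a i := Finset.sum_congr rfl fun i _ => mul_comm _ _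
  rw [h]

theorem ch_abs (a x : Fin n → ZMod 2) : ch a x = 1 ∨ ch a x = -1 := by
  unfold ch
  exact neg_one_pow_eq_or ℝ _

theorem ch_zero (x : Fin n → ZMod 2) : ch 0 x = 1 := by
  unfold ch
  have h : ∑ i, (0 : Fin n → ZMod 2) i * x i = 0 := by
    refine Finset.sum_eq_zero fun i _ => ?_
    rw [Pi.zero_apply, zero_mul]
  rw [h, ZMod.val_zero, pow_zero]

theorem sum_ch (x : Fin n → ZMod 2) : ∑ a, ch a x = if x = 0 then (2 : ℝ) ^ n else 0 := by
  classical
  by_cases hx : x = 0
  · rw [if_pos hx, hx]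
    have h : ∀ a : Fin n → ZMod 2, ch a 0 = 1 := fun a => by rw [ch_comm, ch_zero]
    rw [Finset.sum_congr rfl fun a _ => h a, Finset.sum_const, Finset.card_univ, nsmul_eq_mul,
      mul_one, Fintype.card_fun, ZMod.card, Fintype.card_fin]
    push_cast
    rfl
  · rw [if_neg hx]
    obtain ⟨i, hi⟩ := Function.ne_iff.1 hx
    rw [Pi.zero_apply] at hi
    have hi1 : x i = 1 := by
      have key : ∀ z : ZMod 2, z ≠ 0 → z = 1 := by decide
      exact key _ hi
    have hce : ch x (Pi.single i 1) = -1 := by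
      unfold ch
      have h : ∑ j, x j * (Pi.single i 1 : Fin n → ZMod 2) j = 1 := by
        rw [Finset.sum_eq_single i]
        · rw [Pi.single_eq_same, mul_one, hi1]
        · intro j _ hj
          rw [Pi.single_eq_of_ne hj, mul_zero]
        · intro h
          exact absurd (Finset.mem_univ i) h
      rw [h, ZMod.val_one, pow_one]
    have h1 : ∑ a : Fin n → ZMod 2, ch (a + Pi.single i 1) x = ∑ a : Fin n → ZMod 2, ch a x := by
      have h := Equiv.sum_comp (Equiv.addRight (Pi.single i 1 : Fin n → ZMod 2))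
        (fun a => ch a x)
      simpa only [Equiv.coe_addRight] using h
    have h2 : ∑ a : Fin n → ZMod 2, ch (a + Pi.single i 1) x = - ∑ a, ch a x := by
      rw [← Finset.sum_neg_distrib]
      refine Finset.sum_congr rfl fun a _ => ?_
      rw [ch_comm, ch_add, hce, ch_comm x a]
      ring
    linarith [h1, h2]

private theorem add_eq_zero_iff_two (y x : Fin n → ZMod 2) : y + x = 0 ↔ y = x := by
  have h2 : x + x = 0 := by
    funext i
    have key : ∀ z : ZMod 2, z + z = 0 := by decide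
    exact key (x i)
  constructor
  · intro h
    calc y = y + (x + x) := by rw [h2, add_zero]
      _ = (y + x) + x := by rw [add_assoc]
      _ = x := by rw [h, zero_add]
  · rintro rfl
    exact h2

theorem sum1 (F : Finset (Fin n → ZMod 2)) (x : Fin n → ZMod 2) :
    ∑ a, S F a * ch a x = 2 ^ n * ind F x := by
  classical
  have h1 : ∀ a : Fin n → ZMod 2, S F a * ch a x = ∑ y ∈ F, ch a (y + x) := by
    intro a
    unfold S
    rw [Finset.sum_mul]
    exact Finset.sum_congr rfl fun y _ => (ch_add a y x).symm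
  rw [Finset.sum_congr rfl fun a _ => h1 a, Finset.sum_comm]
  have h2 : ∀ y ∈ F, ∑ a, ch a (y + x) = if y = x then (2 : ℝ) ^ n else 0 := by
    intro y _
    rw [sum_ch]
    exact if_congr (add_eq_zero_iff_two y x) rfl rfl
  rw [Finset.sum_congr rfl h2, Finset.sum_ite_eq' F x]
  unfold ind
  by_cases hx : x ∈ F
  · rw [if_pos hx, if_pos hx, mul_one]
  · rw [if_neg hx, if_neg hx, mul_zero]

theorem sum2 (F : Finset (Fin n → ZMod 2)) (z : Fin n → ZMod 2) :
    ∑ a, S F a ^ 2 * ch a z = 2 ^ n * rr F z := by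
  classical
  have h1 : ∀ a : Fin n → ZMod 2, S F a ^ 2 * ch a z = ∑ y ∈ F, S F a * ch a (y + z) := by
    intro a
    rw [← Finset.mul_sum]
    have h2 : ∑ y ∈ F, ch a (y + z) = S F a * ch a z := by
      unfold S
      rw [Finset.sum_mul]
      exact Finset.sum_congr rfl fun y _ => ch_add a y z
    rw [h2]
    ring
  rw [Finset.sum_congr rfl fun a _ => h1 a, Finset.sum_comm]
  rw [Finset.sum_congr rfl fun y _ => sum1 F (y + z), ← Finset.mul_sum]
  refine congrArg _ ?_
  unfold rr ind
  rw [Finset.sum_boole]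

theorem sum3 (F : Finset (Fin n → ZMod 2)) (x : Fin n → ZMod 2) :
    ∑ a, S F a ^ 3 * ch a x = 2 ^ n * ∑ y ∈ F, rr F (x + y) := by
  classical
  have h1 : ∀ a : Fin n → ZMod 2, S F a ^ 3 * ch a x = ∑ y ∈ F, S F a ^ 2 * ch a (x + y) := by
    intro a
    rw [← Finset.mul_sum]
    have h2 : ∑ y ∈ F, ch a (x + y) = ch a x * S F a := by
      unfold S
      rw [Finset.mul_sum]
      exact Finset.sum_congr rfl fun y _ => ch_add a x y
    rw [h2]
    ring
  rw [Finset.sum_congr rfl fun a _ => h1 a, Finset.sum_comm]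
  rw [Finset.sum_congr rfl fun y _ => sum2 F (x + y), ← Finset.mul_sum]

end Pool.Agent.Work.MP_79d924_lc.FS
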