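import Pool.Agent.Work.MP_79d924_lc.FS.FoA

/-!
MODULE FoB (M).  The closure identity and the bound for subgroups.

`clo_of`: for `a ≠ 0`: `S^3 = N^2 S`; so `2^n ∑_{y ∈ F} rr (x+y) = N^2 ∑_a S a ch a x + (S 0^3 - N^2 S 0) = N^2 2^n ind F x + (m^3 - m) N^3`
(`sum3`, `sum1`, `ch_zero`), and `N^3 / 2^n = N^2 / 2^k` as `N 2^k = 2^n`.
`sub_of`: `2^n ∑_{z ∈ H} rr z = ∑_a S a^2 (∑_{z ∈ H} ch a z)` (`sum2`); `0 ≤ ∑_{z ∈ H} ch a z ≤ |H|` (a character sum over a subgroup is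
`0` or `|H|`: if `ch a h = -1` for some `h ∈ H` translate by `h`), `S a^2 ≤ N^2` for `a ≠ 0`, `S 0^2 = m^2 N^2`, and
`∑_a ∑_{z ∈ H} ch a z = 2^n` (`sum_ch`, `0 ∈ H`).
-/

set_option autoImplicit false

namespace Pool.Agent.Work.MP_79d924_lc.FS

open Finset

variable {n : ℕ}

theorem clo_of {F : Finset (Fin n → ZMod 2)} {N m : ℝ} {k : ℕ} (hN : N * 2 ^ k = 2 ^ n)
    (h0 : S F 0 = m * N) (hS : ∀ a, a ≠ 0 → S F a = 0 ∨ S F a = N ∨ S F a = -N)
    (x : Fin n → ZMod 2) :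
    ∑ y ∈ F, rr F (x + y) = N ^ 2 * (ind F x + (m ^ 3 - m) / 2 ^ k) := by
  have h3 := sum3 F x
  have h1 := sum1 F x
  have key : ∀ a : Fin n → ZMod 2, S F a ^ 3 * ch a x =
      N ^ 2 * (S F a * ch a x) + (if a = 0 then (m ^ 3 - m) * N ^ 3 else 0) := by
    intro a
    by_cases ha : a = 0
    · rw [if_pos ha, ha, h0, ch_zero]
      ring
    · rw [if_neg ha]
      rcases hS a ha with h | h | h <;> rw [h] <;> ring
  rw [Finset.sum_congr rfl (fun a _ => key a), Finset.sum_add_distrib, ← Finset.mul_sum, h1,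
    Finset.sum_ite_eq' Finset.univ (0 : Fin n → ZMod 2), if_pos (Finset.mem_univ _)] at h3
  have hn : (2 : ℝ) ^ n ≠ 0 := pow_ne_zero _ two_ne_zero
  have hk : (2 : ℝ) ^ k ≠ 0 := pow_ne_zero _ two_ne_zero
  apply mul_left_cancel₀ hn
  rw [← h3, ← hN]
  field_simp

private theorem char_sum_nonneg {H : Finset (Fin n → ZMod 2)} (hH : IsSub H)
    (a : Fin n → ZMod 2) : 0 ≤ ∑ z ∈ H, ch a z := by
  by_cases hall : ∀ h ∈ H, ch a h = 1
  · refine Finset.sum_nonneg fun z hz => ?_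
    rw [hall z hz]
    exact zero_le_one
  · push Not at hall
    obtain ⟨h, hh, hne⟩ := hall
    have hm : ch a h = -1 := (ch_abs a h).resolve_left hne
    have h2 : ∀ z : Fin n → ZMod 2, z + h + h = z := by
      intro z
      rw [add_assoc]
      have : h + h = 0 := by
        ext i
        exact CharTwo.add_self_eq_zero (h i)
      rw [this, add_zero]
    have e : ∑ z ∈ H, ch a z = ∑ z ∈ H, ch a (z + h) := by
      refine Finset.sum_nbij' (fun z => z + h) (fun z => z + h) ?_ ?_ ?_ ?_ ?_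
      · intro z hz
        exact hH.2 z hz h hh
      · intro z hz
        exact hH.2 z hz h hh
      · intro z _
        exact h2 z
      · intro z _
        exact h2 z
      · intro z _
        rw [h2]
    have e2 : ∑ z ∈ H, ch a (z + h) = -∑ z ∈ H, ch a z := by
      rw [← Finset.sum_neg_distrib]
      refine Finset.sum_congr rfl fun z _ => ?_
      rw [ch_add, hm, mul_neg_one]
    rw [e2] at e
    linarith

theorem sub_of {F : Finset (Fin n → ZMod 2)} {N m : ℝ}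
    (h0 : S F 0 = m * N) (hS : ∀ a, a ≠ 0 → S F a = 0 ∨ S F a = N ∨ S F a = -N)
    {H : Finset (Fin n → ZMod 2)} (hH : IsSub H) :
    ∑ z ∈ H, rr F z ≤ N ^ 2 * (1 + m ^ 2 * H.card / 2 ^ n) := by
  have hn : (0 : ℝ) < (2 : ℝ) ^ n := pow_pos two_pos _
  have e1 : 2 ^ n * ∑ z ∈ H, rr F z = ∑ a, S F a ^ 2 * ∑ z ∈ H, ch a z := by
    rw [Finset.mul_sum]
    simp_rw [← sum2 F, Finset.mul_sum]
    rw [Finset.sum_comm]
  have e2 : ∑ a : Fin n → ZMod 2, ∑ z ∈ H, ch a z = 2 ^ n := by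
    rw [Finset.sum_comm]
    simp_rw [sum_ch]
    rw [Finset.sum_ite_eq' H (0 : Fin n → ZMod 2), if_pos hH.1]
  have e3 : ∀ a : Fin n → ZMod 2, S F a ^ 2 * ∑ z ∈ H, ch a z ≤
      N ^ 2 * ∑ z ∈ H, ch a z + (if a = 0 then m ^ 2 * N ^ 2 * H.card else 0) := by
    intro a
    have hc := char_sum_nonneg hH a
    by_cases ha : a = 0
    · rw [if_pos ha]
      have hc0 : ∑ z ∈ H, ch a z = H.card := by
        rw [ha]
        simp [ch_zero]
      rw [hc0, ha, h0]
      have : 0 ≤ N ^ 2 * (H.card : ℝ) := by positivity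
      nlinarith
    · rw [if_neg ha, add_zero]
      refine mul_le_mul_of_nonneg_right ?_ hc
      rcases hS a ha with h | h | h <;> rw [h]
      · rw [zero_pow two_ne_zero]
        positivity
      · rw [neg_sq]
  have e4 : 2 ^ n * ∑ z ∈ H, rr F z ≤ N ^ 2 * 2 ^ n + m ^ 2 * N ^ 2 * H.card := by
    rw [e1]
    refine (Finset.sum_le_sum fun a _ => e3 a).trans ?_
    rw [Finset.sum_add_distrib, ← Finset.mul_sum, e2,
      Finset.sum_ite_eq' Finset.univ (0 : Fin n → ZMod 2), if_pos (Finset.mem_univ _)]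
  have e5 : (2 : ℝ) ^ n * (N ^ 2 * (1 + m ^ 2 * H.card / 2 ^ n)) =
      N ^ 2 * 2 ^ n + m ^ 2 * N ^ 2 * H.card := by
    field_simp
  rw [← e5] at e4
  exact le_of_mul_le_mul_left e4 hn

end Pool.Agent.Work.MP_79d924_lc.FS
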