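import Pool.Agent.Work.MP_79d924_lc.FS.FoA

/-!
MODULE FoC (M).  The cubic inequality.

General identity `cube_sum`: for `φ : (Fin n → ZMod 2) → ℝ` and `g z = ∑_a φ a ch a z`:
`∑_z g z^3 = 2^n ∑_{a,b} φ a φ b φ (a + b)` (expand, `∑_z ch (a + b + c) z = 2^n` if `c = a + b`, else `0`; `ch_comm`, `ch_add`, `sum_ch`).
`cub_of`: with `φ = S^2`: `g = 2^n rr` (`sum2`), so `2^(3n) ∑ rr^3 = 2^n ∑_{a,b} S a^2 S b^2 S (a+b)^2`.  For all `a`: `S a^2 ≥ N |S a|` (for `a = 0`: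
`m^2 N^2 ≥ N m N`), so the sum is at least `N^3 ∑ |S a S b S (a+b)| ≥ N^3 ∑_{a,b} S a S b S (a+b)`.  With `φ = S`: `g = 2^n ind F`
(`sum1`), so `2^n ∑_{a,b} S a S b S (a+b) = 2^(3n) ∑ ind^3 = 2^(3n) |F|` and `|F| = S F 0 = m N`.  Together `∑ rr^3 ≥ N^3 m N`.
-/

set_option autoImplicit false

namespace Pool.Agent.Work.MP_79d924_lc.FS

open Finset

variable {n : ℕ}

private theorem ch_mul3 (a b c z : Fin n → ZMod 2) :
    ch a z * ch b z * ch c z = ch z (a + b + c) := by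
  rw [ch_add, ch_add, ch_comm a z, ch_comm b z, ch_comm c z]

private theorem add3_eq_zero (a b c : Fin n → ZMod 2) : a + b + c = 0 ↔ c = a + b := by
  have h1 : ∀ x y z : ZMod 2, x + y + z = 0 ↔ z = x + y := by decide
  constructor
  · intro h
    funext i
    exact (h1 _ _ _).1 (congrFun h i)
  · intro h
    funext i
    exact (h1 _ _ _).2 (congrFun h i)

theorem cube_sum (φ : (Fin n → ZMod 2) → ℝ) :
    ∑ z, (∑ a, φ a * ch a z) ^ 3 = 2 ^ n * ∑ a, ∑ b, φ a * φ b * φ (a + b) := by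
  have h1 : ∀ z : Fin n → ZMod 2, (∑ a, φ a * ch a z) ^ 3 =
      ∑ a, ∑ b, ∑ c, φ a * φ b * φ c * ch z (a + b + c) := by
    intro z
    have h2 : (∑ a, φ a * ch a z) ^ 3 =
        (∑ a, φ a * ch a z) * ((∑ b, φ b * ch b z) * (∑ c, φ c * ch c z)) := by ring
    rw [h2, Finset.sum_mul_sum, Finset.sum_mul]
    refine Finset.sum_congr rfl fun a _ => ?_
    rw [Finset.mul_sum]
    refine Finset.sum_congr rfl fun b _ => ?_
    rw [Finset.mul_sum]
    refine Finset.sum_congr rfl fun c _ => ?_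
    rw [← ch_mul3]
    ring
  simp only [h1]
  rw [Finset.sum_comm, Finset.mul_sum]
  refine Finset.sum_congr rfl fun a _ => ?_
  rw [Finset.sum_comm, Finset.mul_sum]
  refine Finset.sum_congr rfl fun b _ => ?_
  rw [Finset.sum_comm]
  have h3 : ∀ c : Fin n → ZMod 2, ∑ z, φ a * φ b * φ c * ch z (a + b + c) =
      if c = a + b then 2 ^ n * (φ a * φ b * φ (a + b)) else 0 := by
    intro c
    rw [← Finset.mul_sum, sum_ch]
    by_cases h : c = a + b
    · rw [if_pos ((add3_eq_zero a b c).2 h), if_pos h, h]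
      ring
    · rw [if_neg (fun h' => h ((add3_eq_zero a b c).1 h')), if_neg h, mul_zero]
  rw [Finset.sum_congr rfl fun c _ => h3 c, Finset.sum_ite_eq' Finset.univ (a + b),
    if_pos (Finset.mem_univ _)]

theorem cub_of {F : Finset (Fin n → ZMod 2)} {N m : ℝ} (hN : 0 < N) (hm : 1 ≤ m)
    (h0 : S F 0 = m * N) (hS : ∀ a, a ≠ 0 → S F a = 0 ∨ S F a = N ∨ S F a = -N) :
    m * N ^ 4 ≤ ∑ z, rr F z ^ 3 := by
  have hT : (0 : ℝ) < 2 ^ n := by positivity
  have hA : ((2 : ℝ) ^ n) ^ 3 * ∑ z, rr F z ^ 3 =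
      2 ^ n * ∑ a, ∑ b, S F a ^ 2 * S F b ^ 2 * S F (a + b) ^ 2 := by
    rw [← cube_sum (fun a => S F a ^ 2), Finset.mul_sum]
    refine Finset.sum_congr rfl fun z _ => ?_
    show ((2 : ℝ) ^ n) ^ 3 * rr F z ^ 3 = (∑ a, S F a ^ 2 * ch a z) ^ 3
    rw [sum2]
    ring
  have hB : ((2 : ℝ) ^ n) ^ 3 * (m * N) = 2 ^ n * ∑ a, ∑ b, S F a * S F b * S F (a + b) := by
    have h1 : ∀ z : Fin n → ZMod 2, (∑ a, S F a * ch a z) ^ 3 = ((2 : ℝ) ^ n) ^ 3 * ind F z := by
      intro z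
      rw [sum1, mul_pow]
      congr 1
      unfold ind
      split_ifs <;> norm_num
    rw [← cube_sum (S F), Finset.sum_congr rfl fun z _ => h1 z, ← Finset.mul_sum]
    congr 1
    rw [← h0]
    unfold S ind
    rw [Finset.sum_ite_mem, Finset.univ_inter]
    refine Finset.sum_congr rfl fun x _ => ?_
    rw [ch_zero]
  have hsq : ∀ a, N * |S F a| ≤ S F a ^ 2 := by
    intro a
    by_cases ha : a = 0
    · rw [ha, h0, abs_of_nonneg (by positivity)]
      nlinarith [mul_nonneg (mul_nonneg (sub_nonneg.2 hm) (by linarith : (0 : ℝ) ≤ m))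
        (sq_nonneg N)]
    · rcases hS a ha with h | h | h
      · rw [h]
        simp
      · rw [h, abs_of_pos hN]
        exact le_of_eq (by ring)
      · rw [h, abs_neg, abs_of_pos hN]
        exact le_of_eq (by ring)
  have hpt : ∀ a b, N ^ 3 * (S F a * S F b * S F (a + b)) ≤
      S F a ^ 2 * S F b ^ 2 * S F (a + b) ^ 2 := by
    intro a b
    calc N ^ 3 * (S F a * S F b * S F (a + b))
        ≤ N ^ 3 * |S F a * S F b * S F (a + b)| := by
          apply mul_le_mul_of_nonneg_left (le_abs_self _) (by positivity)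
      _ = (N * |S F a|) * (N * |S F b|) * (N * |S F (a + b)|) := by
          rw [abs_mul, abs_mul]
          ring
      _ ≤ S F a ^ 2 * S F b ^ 2 * S F (a + b) ^ 2 := by
          have h1 := hsq a
          have h2 := hsq b
          have h3 := hsq (a + b)
          gcongr
  have hsum : N ^ 3 * ∑ a, ∑ b, S F a * S F b * S F (a + b) ≤
      ∑ a, ∑ b, S F a ^ 2 * S F b ^ 2 * S F (a + b) ^ 2 := by
    rw [Finset.mul_sum]
    refine Finset.sum_le_sum fun a _ => ?_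
    rw [Finset.mul_sum]
    exact Finset.sum_le_sum fun b _ => hpt a b
  have h5 : ((2 : ℝ) ^ n) ^ 3 * (m * N ^ 4) ≤ ((2 : ℝ) ^ n) ^ 3 * ∑ z, rr F z ^ 3 := by
    rw [hA]
    calc ((2 : ℝ) ^ n) ^ 3 * (m * N ^ 4) = N ^ 3 * (((2 : ℝ) ^ n) ^ 3 * (m * N)) := by ring
      _ = 2 ^ n * (N ^ 3 * ∑ a, ∑ b, S F a * S F b * S F (a + b)) := by
          rw [hB]
          ring
      _ ≤ _ := mul_le_mul_of_nonneg_left hsum hT.le
  exact le_of_mul_le_mul_left h5 (by positivity)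

end Pool.Agent.Work.MP_79d924_lc.FS
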