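import Pool.Agent.Work.MP_79d924_lc.FS.Pw2
import Pool.Agent.Work.MP_79d924_lc.FS.Fil

/-!
MODULE InP (S-M).  A vertex with many popular neighbours in the coset is in the coset.

Suppose `x0 ∉ y + H`, so `q = x0 + y ∉ H`.  `H' = H ∪ (q + H)` is a subgroup of cardinality `2 |H|` (`sub_adjoin`), so by `sub`
`∑_{z ∈ H} rr z + ∑_{z ∈ q + H} rr z ≤ N^2 (1 + m^2 2 |H| / |G|) ≤ (3/2) N^2` (`|H| = N`, `big`).
The first sum is at least `|H| |H| = N^2` (`coset_row`), and for `u ∈ y + H` we have `x0 + u ∈ q + H`, so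
`∑_{z ∈ q + H} rr z = ∑_{u ∈ y + H} rr (x0 + u) ≥ |C ∩ (y + H)| (3/4) N ≥ (5/6)(3/4) N^2 > N^2 / 2`.
-/

set_option autoImplicit false

namespace Pool.Agent.Work.MP_79d924_lc.FS

open Finset

variable {G : Type} [AddCommGroup G] [Fintype G] [DecidableEq G] {F : Finset G} {N m ε : ℝ}

theorem mem_coset (h : Core F N m ε) {H : Finset G} (hH : IsSub H) (hN : (H.card : ℝ) = N)
    {y : G} (hy : cs y H ⊆ F) {C : Finset G}
    (hC : 5 / 6 * (H.card : ℝ) ≤ ((C ∩ cs y H).card : ℝ)) {x0 : G}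
    (hx : ∀ u ∈ C, 3 / 4 * N ≤ rr F (x0 + u)) : x0 ∈ cs y H := by
  by_contra hx0
  have hq : x0 + y ∉ H := by
    intro hq
    exact hx0 (by unfold cs; rw [Finset.mem_filter]; exact ⟨Finset.mem_univ _, hq⟩)
  obtain ⟨h1, h2, h3⟩ := sub_adjoin h.two hH hq
  have hN0 := h.Npos
  have hG : (0 : ℝ) < Fintype.card G := by
    have : 0 < Fintype.card G := Fintype.card_pos_iff.2 ⟨0⟩
    exact_mod_cast this
  have hsub := h.sub _ h1
  rw [Finset.sum_union h2, h3] at hsub
  have hup : N ^ 2 * (1 + m ^ 2 * ((2 * H.card : ℕ) : ℝ) / Fintype.card G) ≤ 3 / 2 * N ^ 2 := by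
    have hb := h.big
    have : m ^ 2 * ((2 * H.card : ℕ) : ℝ) / Fintype.card G ≤ 1 / 2 := by
      rw [div_le_iff₀ hG]
      push_cast
      rw [hN]
      linarith
    nlinarith [sq_nonneg N]
  have hlow1 : N ^ 2 ≤ ∑ z ∈ H, rr F z := by
    calc N ^ 2 = ∑ z ∈ H, (H.card : ℝ) := by
          rw [Finset.sum_const, nsmul_eq_mul, hN]; ring
      _ ≤ _ := Finset.sum_le_sum fun z hz => coset_row h hH hy hz
  have hlow2 : 5 / 8 * N ^ 2 ≤ ∑ z ∈ cs (x0 + y) H, rr F z := by
    have himg : (C ∩ cs y H).image (fun u => x0 + u) ⊆ cs (x0 + y) H := by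
      intro z hz
      obtain ⟨u, hu, rfl⟩ := Finset.mem_image.1 hz
      have hu2 := (Finset.mem_inter.1 hu).2
      unfold cs at hu2 ⊢
      rw [Finset.mem_filter] at hu2 ⊢
      refine ⟨Finset.mem_univ _, ?_⟩
      have : x0 + u + (x0 + y) = u + y := by
        have := h.two x0
        calc x0 + u + (x0 + y) = (x0 + x0) + (u + y) := by abel
          _ = u + y := by rw [this, zero_add]
      rw [this]
      exact hu2.2
    calc 5 / 8 * N ^ 2 = (5 / 6 * N) * (3 / 4 * N) := by ring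
      _ ≤ ((C ∩ cs y H).card : ℝ) * (3 / 4 * N) := by
          apply mul_le_mul_of_nonneg_right _ (by positivity)
          rw [← hN]; exact hC
      _ = ∑ u ∈ C ∩ cs y H, (3 / 4 * N) := by rw [Finset.sum_const, nsmul_eq_mul]
      _ ≤ ∑ u ∈ C ∩ cs y H, rr F (x0 + u) :=
          Finset.sum_le_sum fun u hu => hx u (Finset.mem_inter.1 hu).1
      _ = ∑ z ∈ (C ∩ cs y H).image (fun u => x0 + u), rr F z := by
          rw [Finset.sum_image]
          intro a _ b _ hab
          exact add_left_cancel hab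
      _ ≤ _ := Finset.sum_le_sum_of_subset_of_nonneg himg
          fun z _ _ => by unfold rr; positivity
  have hN2 : 0 < N ^ 2 := by positivity
  linarith

end Pool.Agent.Work.MP_79d924_lc.FS
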