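import Pool.Agent.Work.MP_79d924_lc.FS.Defs

/-!
MODULE Lin (M).  A subgroup of `F_2^n` with `2^(n-k)` elements is given by `k` independent linear equations.

`H` is the carrier of a submodule `V` (`ZMod 2`-scalars are `0`, `1`), `finrank V = n - k` (`Module.card_eq_pow_finrank`).  The dual
annihilator of `V` has dimension `k` (`Subspace.finrank_dualAnnihilator_eq` or similar); take a basis `l_1, ..., l_k`, put
`A j i = l_j (e_i)`; `x ∈ V ↔ ∀ j, l_j x = 0` (`Subspace.dualAnnihilator_dualCoannihilator_eq` or
`Submodule.mem_dualCoannihilator`).  Linear independence of the rows: the map `l ↦ (i ↦ l e_i)` is injective and linear.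
Then `x ∈ cs y H ↔ x + y ∈ H ↔ ∀ j, ∑ A j i (x i + y i) = 0 ↔ ∑ A j i x i = ∑ A j i y i` (characteristic 2).
-/

set_option autoImplicit false

namespace Pool.Agent.Work.MP_79d924_lc.FS

open Finset

theorem lin_eqs {n k : ℕ} {H : Finset (Fin n → ZMod 2)} (hH : IsSub H)
    (hc : H.card * 2 ^ k = 2 ^ n) (y : Fin n → ZMod 2) :
    ∃ (A : Fin k → Fin n → ZMod 2) (b : Fin k → ZMod 2), LinearIndependent (ZMod 2) A ∧
      ∀ x, x ∈ cs y H ↔ ∀ j, ∑ i, A j i * x i = b j := by
  classical
  let V : Submodule (ZMod 2) (Fin n → ZMod 2) :=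
    { carrier := (H : Set (Fin n → ZMod 2))
      add_mem' := fun {a b} ha hb => hH.2 a ha b hb
      zero_mem' := hH.1
      smul_mem' := fun c x hx => by
        have hc : c = 0 ∨ c = 1 := by
          revert c
          decide
        rcases hc with rfl | rfl
        · rw [zero_smul]
          exact hH.1
        · rw [one_smul]
          exact hx }
  have hV : ∀ x, x ∈ V ↔ x ∈ H := fun x => Iff.rfl
  have hcard : Nat.card V = H.card := by
    show Nat.card ((H : Set (Fin n → ZMod 2)) : Type) = H.card
    rw [Nat.card_coe_set_eq, Set.ncard_coe_finset]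
  have hpow : Nat.card V = 2 ^ Module.finrank (ZMod 2) V := by
    letI : Fintype V := Fintype.ofFinite V
    have h1 := Module.card_eq_pow_finrank (K := ZMod 2) (V := V)
    rw [ZMod.card 2] at h1
    rw [Nat.card_eq_fintype_card, h1]
  have hfr : Module.finrank (ZMod 2) V + k = n := by
    have h1 : 2 ^ (Module.finrank (ZMod 2) V + k) = 2 ^ n := by
      rw [pow_add, ← hpow, hcard, hc]
    exact Nat.pow_right_injective (le_refl 2) h1
  have hdual : Module.finrank (ZMod 2) V.dualAnnihilator = k := by
    have h1 := Subspace.finrank_add_finrank_dualAnnihilator_eq V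
    rw [Module.finrank_fin_fun] at h1
    omega
  let l : Module.Basis (Fin k) (ZMod 2) V.dualAnnihilator := Module.finBasisOfFinrankEq _ _ hdual
  let E : Module.Dual (ZMod 2) (Fin n → ZMod 2) →ₗ[ZMod 2] (Fin n → ZMod 2) :=
    { toFun := fun f i => f (fun j => if i = j then 1 else 0)
      map_add' := fun f g => rfl
      map_smul' := fun c f => rfl }
  have hE : ∀ (f : Module.Dual (ZMod 2) (Fin n → ZMod 2)) (x : Fin n → ZMod 2),
      f x = ∑ i, E f i * x i := by
    intro f x
    rw [LinearMap.pi_apply_eq_sum_univ f x]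
    apply Finset.sum_congr rfl
    intro i _
    rw [smul_eq_mul, mul_comm]
    rfl
  have hEinj : LinearMap.ker E = ⊥ := by
    rw [LinearMap.ker_eq_bot']
    intro f hf
    apply LinearMap.ext
    intro x
    rw [hE f x, hf]
    simp
  refine ⟨fun j => E (l j : Module.Dual (ZMod 2) (Fin n → ZMod 2)),
    fun j => ∑ i, E (l j : Module.Dual (ZMod 2) (Fin n → ZMod 2)) i * y i, ?_, ?_⟩
  · have h1 : LinearIndependent (ZMod 2)
        (fun j => ((l j : V.dualAnnihilator) : Module.Dual (ZMod 2) (Fin n → ZMod 2))) :=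
      l.linearIndependent.map' V.dualAnnihilator.subtype (Submodule.ker_subtype _)
    exact h1.map' E hEinj
  · intro x
    have h1 : x ∈ cs y H ↔ x + y ∈ V := by
      rw [hV]
      simp [cs]
    rw [h1, ← Subspace.forall_mem_dualAnnihilator_apply_eq_zero_iff V (x + y)]
    have hsplit : ∀ j, (l j : Module.Dual (ZMod 2) (Fin n → ZMod 2)) (x + y) = 0 ↔
        ∑ i, E (l j : Module.Dual (ZMod 2) (Fin n → ZMod 2)) i * x i =
          ∑ i, E (l j : Module.Dual (ZMod 2) (Fin n → ZMod 2)) i * y i := by
      intro j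
      rw [map_add, hE _ x, hE _ y]
      constructor
      · intro h2
        rw [add_eq_zero_iff_eq_neg] at h2
        rw [h2]
        exact ZModModule.neg_eq_self _
      · intro h2
        rw [h2]
        exact ZModModule.add_self _
    constructor
    · intro h2 j
      rw [← hsplit j]
      exact h2 _ (l j).2
    · intro h2 φ hφ
      have h3 : (⟨φ, hφ⟩ : V.dualAnnihilator) = ∑ j, l.repr ⟨φ, hφ⟩ j • l j :=
        (l.sum_repr ⟨φ, hφ⟩).symm
      have h4 : φ = ∑ j, l.repr ⟨φ, hφ⟩ j •
          ((l j : V.dualAnnihilator) : Module.Dual (ZMod 2) (Fin n → ZMod 2)) := by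
        have h5 := congrArg V.dualAnnihilator.subtype h3
        rw [map_sum] at h5
        simp only [map_smul] at h5
        exact h5
      rw [h4, LinearMap.sum_apply]
      apply Finset.sum_eq_zero
      intro j _
      rw [LinearMap.smul_apply, (hsplit j).mpr (h2 j), smul_zero]

end Pool.Agent.Work.MP_79d924_lc.FS
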