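import Pool.Agent.Work.MP_79d924_lc.FS.Cov
import Pool.Agent.Work.MP_79d924_lc.FS.FoB
import Pool.Agent.Work.MP_79d924_lc.FS.FoC
import Pool.Agent.Work.MP_79d924_lc.FS.Lin

/-!
MODULE Main (M).  The theorem.

`F = {x | f x}`, `S F a = 2^n fc f a`, `N = 2^n / 2^k`.  `m = 0`: `f = false`.  `m ≥ 1`: `k ≤ n`: otherwise
`0 < N < 1`; `S F a` is an integer (sum of signs), so `S F a = 0` for `a ≠ 0`, by `sum1` `2^n ind F x = S F 0 = m N` for all `x`, and since
`F` is not empty `m N = 2^n`, `m = 2^k`, against `2^24 m^6 ≤ 2^k`.  So `N = 2^(n-k)`.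
`Core F N m ε` with `ε = (m^3 - m)/2^k` (`clo_of`, `cub_of`, `sub_of`; `big`: `4 m^2 ≤ 2^k`; `small`:
`2^24 m^3 (m^3 - m) ≤ 2^24 m^6 ≤ 2^k`).  Then `cover`, `lin_eqs`.
-/

set_option autoImplicit false

namespace Pool.Agent.Work.MP_79d924_lc.FS

open Finset

/-- The Fourier coefficient of `f` at `a`. -/
noncomputable def fc {n : ℕ} (f : (Fin n → ZMod 2) → Bool) (a : Fin n → ZMod 2) : ℝ :=
  1 / 2 ^ n * ∑ x, (if f x then (1 : ℝ) else 0) * (-1 : ℝ) ^ ((∑ i, a i * x i).val)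

private theorem S_eq {n : ℕ} (f : (Fin n → ZMod 2) → Bool) (a : Fin n → ZMod 2) :
    S (univ.filter (fun x => f x = true)) a = 2 ^ n * fc f a := by
  have hn : (2 : ℝ) ^ n ≠ 0 := pow_ne_zero _ two_ne_zero
  unfold S fc ch
  rw [Finset.sum_filter, ← mul_assoc, mul_one_div_cancel hn, one_mul]
  refine Finset.sum_congr rfl fun x _ => ?_
  by_cases h : f x = true
  · rw [if_pos h, if_pos h, one_mul]
  · rw [if_neg h, if_neg h, zero_mul]

private theorem S_int {n : ℕ} (F : Finset (Fin n → ZMod 2)) (a : Fin n → ZMod 2) :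
    ∃ z : ℤ, S F a = z := by
  classical
  refine ⟨∑ x ∈ F, if ch a x = 1 then 1 else -1, ?_⟩
  unfold S
  push_cast
  refine Finset.sum_congr rfl fun x _ => ?_
  rcases ch_abs a x with h | h
  · rw [if_pos h, h]
  · rw [if_neg (by rw [h]; norm_num), h]

private theorem S_zero {n : ℕ} (F : Finset (Fin n → ZMod 2)) : S F 0 = F.card := by
  unfold S
  simp [ch_zero]

private theorem k_le {n k m : ℕ} (hm : 1 ≤ m) (hk : 2 ^ 24 * m ^ 6 ≤ 2 ^ k)
    (F : Finset (Fin n → ZMod 2)) {N : ℝ} (hN : N * 2 ^ k = 2 ^ n)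
    (h0 : S F 0 = m * N) (hS : ∀ a, a ≠ 0 → S F a = 0 ∨ S F a = N ∨ S F a = -N) : k ≤ n := by
  by_contra hlt
  push Not at hlt
  have hn : (0 : ℝ) < (2 : ℝ) ^ n := pow_pos two_pos _
  have hkp : (0 : ℝ) < (2 : ℝ) ^ k := pow_pos two_pos _
  have hNpos : 0 < N := by
    by_contra h
    push Not at h
    nlinarith
  have hN1 : N < 1 := by
    have h1 : (2 : ℝ) ^ n < 2 ^ k := pow_lt_pow_right₀ one_lt_two hlt
    by_contra h
    push Not at h
    nlinarith
  have hz : ∀ a, a ≠ 0 → S F a = 0 := by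
    intro a ha
    obtain ⟨z, hz⟩ := S_int F a
    rcases hS a ha with h | h | h
    · exact h
    · exfalso
      rw [hz] at h
      rw [← h] at hNpos hN1
      have h1 : 0 < z := by exact_mod_cast hNpos
      have h2 : z < 1 := by exact_mod_cast hN1
      omega
    · exfalso
      rw [hz] at h
      have h3 : N = ((-z : ℤ) : ℝ) := by
        push_cast
        linarith
      rw [h3] at hNpos hN1
      have h1 : 0 < -z := by exact_mod_cast hNpos
      have h2 : -z < 1 := by exact_mod_cast hN1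
      omega
  have hmr : (1 : ℝ) ≤ m := by exact_mod_cast hm
  have hcard : 0 < F.card := by
    have h1 : (0 : ℝ) < F.card := by
      rw [← S_zero, h0]
      positivity
    exact_mod_cast h1
  obtain ⟨x0, hx0⟩ := Finset.card_pos.1 hcard
  have h1 := sum1 F x0
  rw [Finset.sum_eq_single (0 : Fin n → ZMod 2)
    (fun a _ ha => by rw [hz a ha, zero_mul])
    (fun h => absurd (Finset.mem_univ _) h), ch_zero, h0] at h1
  have h2 : ind F x0 = 1 := by
    unfold ind
    rw [if_pos hx0]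
  rw [h2, mul_one, mul_one, ← hN] at h1
  have h3 : (m : ℝ) = 2 ^ k := by
    have : N * (m : ℝ) = N * 2 ^ k := by linarith
    exact mul_left_cancel₀ hNpos.ne' this
  have h4 : m = 2 ^ k := by exact_mod_cast h3
  rw [← h4] at hk
  have h5 : m ≤ m ^ 6 := Nat.le_self_pow (by norm_num) m
  have h6 : 1 ≤ m ^ 6 := Nat.one_le_pow _ _ hm
  omega

private theorem core_of {n k m : ℕ} (hm : 1 ≤ m) (hk : 2 ^ 24 * m ^ 6 ≤ 2 ^ k)
    (F : Finset (Fin n → ZMod 2)) {N : ℝ} (hN : N * 2 ^ k = 2 ^ n)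
    (h0 : S F 0 = m * N) (hS : ∀ a, a ≠ 0 → S F a = 0 ∨ S F a = N ∨ S F a = -N) :
    Core F N m (((m : ℝ) ^ 3 - m) / 2 ^ k) := by
  have hn : (0 : ℝ) < (2 : ℝ) ^ n := pow_pos two_pos _
  have hkp : (0 : ℝ) < (2 : ℝ) ^ k := pow_pos two_pos _
  have hNpos : 0 < N := by
    by_contra h
    push Not at h
    nlinarith
  have hmr : (1 : ℝ) ≤ m := by exact_mod_cast hm
  have hkr : (2 : ℝ) ^ 24 * (m : ℝ) ^ 6 ≤ 2 ^ k := by exact_mod_cast hk
  have hcardG : ((Fintype.card (Fin n → ZMod 2) : ℕ) : ℝ) = 2 ^ n := by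
    rw [Fintype.card_fun, ZMod.card, Fintype.card_fin]
    push_cast
    rfl
  have hm3 : (m : ℝ) ≤ (m : ℝ) ^ 3 := le_self_pow₀ hmr (by norm_num)
  refine ⟨?_, hNpos, hmr, ?_, ?_, ?_, ?_, ?_, ?_, ?_⟩
  · intro x
    ext i
    exact CharTwo.add_self_eq_zero (x i)
  · exact div_nonneg (by linarith) hkp.le
  · rw [← S_zero, h0]
  · intro x
    exact clo_of hN h0 hS x
  · exact cub_of hNpos hmr h0 hS
  · intro H hH
    rw [hcardG]
    exact sub_of h0 hS hH
  · rw [hcardG, ← hN]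
    have h1 : (m : ℝ) ^ 2 ≤ (m : ℝ) ^ 6 := pow_le_pow_right₀ hmr (by norm_num)
    have h2 : 4 * (m : ℝ) ^ 2 ≤ 2 ^ k := by
      have : (0 : ℝ) ≤ (m : ℝ) ^ 6 := by positivity
      nlinarith
    nlinarith
  · have h1 : (0 : ℝ) < (m : ℝ) ^ 3 := by positivity
    rw [mul_div_assoc', div_le_one hkp]
    nlinarith

theorem flat_spectrum {n k m : ℕ} (hk : 2 ^ 24 * m ^ 6 ≤ 2 ^ k) (f : (Fin n → ZMod 2) → Bool)
    (h0 : fc f 0 = m / 2 ^ k)
    (h1 : ∀ a, a ≠ 0 → fc f a = 0 ∨ fc f a = 1 / 2 ^ k ∨ fc f a = -(1 / 2 ^ k)) :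
    ∃ (A : Fin m → Fin k → Fin n → ZMod 2) (b : Fin m → Fin k → ZMod 2),
      (∀ i, LinearIndependent (ZMod 2) (A i)) ∧
      (∀ x : Fin n → ZMod 2, f x = true ↔ ∃ i, ∀ j, ∑ l, A i j l * x l = b i j) ∧
      ∀ i i', i ≠ i' → ∀ x : Fin n → ZMod 2, ¬ ((∀ j, ∑ l, A i j l * x l = b i j) ∧
        ∀ j, ∑ l, A i' j l * x l = b i' j) := by
  classical
  have hn : (0 : ℝ) < (2 : ℝ) ^ n := pow_pos two_pos _
  have hkp : (0 : ℝ) < (2 : ℝ) ^ k := pow_pos two_pos _
  set F : Finset (Fin n → ZMod 2) := univ.filter (fun x => f x = true) with hF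
  have hmem : ∀ x, x ∈ F ↔ f x = true := by
    intro x
    rw [hF, Finset.mem_filter]
    exact and_iff_right (Finset.mem_univ _)
  set N : ℝ := 2 ^ n / 2 ^ k with hNdef
  have hN : N * 2 ^ k = 2 ^ n := by
    rw [hNdef]
    field_simp
  have e0 : S F 0 = m * N := by
    rw [S_eq, h0, hNdef]
    field_simp
  have eS : ∀ a, a ≠ 0 → S F a = 0 ∨ S F a = N ∨ S F a = -N := by
    intro a ha
    rw [S_eq]
    rcases h1 a ha with h | h | h
    · left
      rw [h, mul_zero]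
    · right
      left
      rw [h, hNdef]
      field_simp
    · right
      right
      rw [h, hNdef]
      field_simp
  rcases Nat.eq_zero_or_pos m with hm | hm
  · subst hm
    have hc : F.card = 0 := by
      have : (F.card : ℝ) = 0 := by
        rw [← S_zero, e0]
        push_cast
        ring
      exact_mod_cast this
    have hFe : F = ∅ := Finset.card_eq_zero.1 hc
    refine ⟨fun i => i.elim0, fun i => i.elim0, fun i => i.elim0, ?_, fun i => i.elim0⟩
    intro x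
    constructor
    · intro hx
      have : x ∈ F := (hmem x).2 hx
      rw [hFe] at this
      exact absurd this (Finset.notMem_empty x)
    · rintro ⟨i, _⟩
      exact i.elim0
  · have hkn : k ≤ n := k_le hm hk F hN e0 eS
    have hcore := core_of hm hk F hN e0 eS
    have hb : N = 2 ^ (n - k) := by
      rw [hNdef, div_eq_iff hkp.ne', ← pow_add, Nat.sub_add_cancel hkn]
    obtain ⟨y, H, hH, hcov, hdis⟩ := cover hcore hb
    have hcH : ∀ i, (H i).card * 2 ^ k = 2 ^ n := by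
      intro i
      have h2 : (((H i).card * 2 ^ k : ℕ) : ℝ) = ((2 ^ n : ℕ) : ℝ) := by
        push_cast
        rw [(hH i).2, hN]
      exact_mod_cast h2
    choose A b hA hAb using fun i => lin_eqs (hH i).1 (hcH i) (y i)
    refine ⟨A, b, hA, ?_, ?_⟩
    · intro x
      rw [← hmem, hcov]
      exact exists_congr fun i => hAb i x
    · intro i i' hne x hx
      have h2 := (hAb i x).2 hx.1
      have h3 := (hAb i' x).2 hx.2
      exact (Finset.disjoint_left.1 (hdis i i' hne)) h2 h3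

end Pool.Agent.Work.MP_79d924_lc.FS
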