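import Pool.Agent.Work.MP_79d924_lc.FS.Defs

/-!
MODULE Plu (S).  Triple sums by Pluennecke and Ruzsa.

Mathlib: `Finset.pluennecke_ruzsa_inequality_nsmul_add` (additive form of `pluennecke_ruzsa_inequality_pow_mul`, with
`n = 3`, `A = B = C`; the statement is about `3 • C`, i.e. `C + C + C`, in `ℚ≥0`).  The set of the triple sums is
`3 • C`.
-/

set_option autoImplicit false

namespace Pool.Agent.Work.MP_79d924_lc.FS

open Finset

variable {G : Type} [AddCommGroup G] [Fintype G] [DecidableEq G]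

omit [Fintype G] in
open scoped Pointwise in
private theorem plu_aux (C : Finset G) (hC : C.Nonempty) :
    (((C + C + C).card : ℕ) : ℝ) ≤ (((C + C).card : ℝ) / (C.card : ℝ)) ^ 3 * (C.card : ℝ) := by
  have h := pluennecke_ruzsa_inequality_nsmul_add hC C 3
  have h3 : (3 : ℕ) • C = C + C + C := by
    rw [succ_nsmul, succ_nsmul, one_nsmul]
  rw [h3] at h
  have h' := (NNRat.cast_le (K := ℝ)).mpr h
  push_cast at h'
  exact h'

omit [Fintype G] in
open scoped Pointwise in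
private theorem img2 (C : Finset G) :
    (C ×ˢ C).image (fun p => p.1 + p.2) = C + C := by
  ext x
  simp only [mem_image, mem_product, mem_add, Prod.exists]
  constructor
  · rintro ⟨a, b, ⟨ha, hb⟩, rfl⟩
    exact ⟨a, ha, b, hb, rfl⟩
  · rintro ⟨a, ha, b, hb, rfl⟩
    exact ⟨a, b, ⟨ha, hb⟩, rfl⟩

omit [Fintype G] in
open scoped Pointwise in
private theorem img3 (C : Finset G) :
    (C ×ˢ C ×ˢ C).image (fun p => p.1 + p.2.1 + p.2.2) = C + C + C := by
  ext x
  simp only [mem_image, mem_product, mem_add, Prod.exists]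
  constructor
  · rintro ⟨a, b, c, ⟨ha, hb, hc⟩, rfl⟩
    exact ⟨a + b, ⟨a, ha, b, hb, rfl⟩, c, hc, rfl⟩
  · rintro ⟨_, ⟨a, ha, b, hb, rfl⟩, c, hc, rfl⟩
    exact ⟨a, b, c, ⟨ha, hb, hc⟩, rfl⟩

theorem triple_card (C : Finset G) (hC : C.Nonempty) {κ : ℝ}
    (h : (((C ×ˢ C).image (fun p => p.1 + p.2)).card : ℝ) ≤ κ * C.card) :
    (((C ×ˢ C ×ˢ C).image (fun p => p.1 + p.2.1 + p.2.2)).card : ℝ) ≤ κ ^ 3 * C.card := by
  have hc : (0 : ℝ) < C.card := by exact_mod_cast hC.card_pos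
  rw [img2] at h
  rw [img3]
  refine (plu_aux C hC).trans ?_
  refine mul_le_mul_of_nonneg_right ?_ hc.le
  refine pow_le_pow_left₀ (by positivity) ?_ 3
  rw [div_le_iff₀ hc]
  exact h

end Pool.Agent.Work.MP_79d924_lc.FS
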