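import Pool.Agent.Work.MP_79d924_lc.FS.TKA
import Pool.Agent.Work.MP_79d924_lc.FS.Plu

/-!
MODULE Out (M).  Almost all triple sums of the cluster are in `F`.

(1) For `s = y + w`, `y, w ∈ C`: `rr s = N^2 T(y,w) ≥ 0.993 M N^2`.  By `sum_sq`
`|C + C| (0.993 M N^2)^2 ≤ m N^3 (1 + ε)`, so `|C + C| ≤ κ |C|` with `κ = 1.02 m / (M N)`
(use `|C| M ≥ 0.998`, `1.0001/(0.993^2 * 0.998) ≤ 1.02`).
(2) `triple_card`: `|C + C + C| ≤ κ^3 |C|`.
(3) For `z ∉ F` the number of `(y1, y2, y3) ∈ C^3` with sum `z` is at most `∑_{y ∈ F} rr (z + y) = N^2 ε` (`clo`).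
So the number of triples with sum outside `F` is at most
`κ^3 |C| N^2 ε = 1.062 m^3 ε N^2 |C| / (M N)^3 ≤ 1.07 m^3 ε |C|^3 / (M N)` (from `1 ≤ (|C| M)^2 / 0.996`), at most
`|C|^3 / 1000` by `small` and `M N ≥ 0.999`.
-/

set_option autoImplicit false

namespace Pool.Agent.Work.MP_79d924_lc.FS

open Finset

variable {G : Type} [AddCommGroup G] [Fintype G] [DecidableEq G] {F : Finset G} {N m ε : ℝ}

private theorem fiber_le (two : ∀ x : G, x + x = 0) {C : Finset G} (hCF : C ⊆ F) (S : Finset G) (z : G) :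
    ((((tri C S).filter (fun p => p.1 + p.2.1 + p.2.2 = z)).card : ℕ) : ℝ) ≤
      ∑ y ∈ F, rr F (z + y) := by
  classical
  have h1 : ((tri C S).filter (fun p => p.1 + p.2.1 + p.2.2 = z)).card ≤
      ((F ×ˢ F).filter (fun q => q.2 + (z + q.1) ∈ F)).card := by
    refine Finset.card_le_card_of_injOn (fun p => (p.1, p.2.1)) ?_ ?_
    · intro p hp
      rw [Finset.mem_coe, Finset.mem_filter] at hp
      obtain ⟨hp1, hp2⟩ := hp
      unfold tri at hp1
      rw [Finset.mem_filter, Finset.mem_product, Finset.mem_product] at hp1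
      obtain ⟨⟨ha, hb, hc⟩, -⟩ := hp1
      rw [Finset.mem_coe, Finset.mem_filter, Finset.mem_product]
      refine ⟨⟨hCF ha, hCF hb⟩, ?_⟩
      have h2 : p.2.1 + (z + p.1) = p.2.2 := by
        rw [← hp2]
        calc p.2.1 + (p.1 + p.2.1 + p.2.2 + p.1) = (p.1 + p.1) + (p.2.1 + p.2.1) + p.2.2 := by abel
          _ = p.2.2 := by rw [two, two, zero_add, zero_add]
      simp only
      rw [h2]
      exact hCF hc
    · intro p hp q hq hpq
      rw [Finset.mem_coe, Finset.mem_filter] at hp hq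
      simp only [Prod.mk.injEq] at hpq
      obtain ⟨h3, h4⟩ := hpq
      have h5 : p.2.2 = q.2.2 := by
        have h6 := hp.2.trans hq.2.symm
        rw [h3, h4] at h6
        exact add_left_cancel h6
      exact Prod.ext h3 (Prod.ext h4 h5)
  have h2 : (((F ×ˢ F).filter (fun q => q.2 + (z + q.1) ∈ F)).card : ℝ) =
      ∑ y ∈ F, rr F (z + y) := by
    rw [Finset.card_filter, Finset.sum_product]
    push_cast
    refine Finset.sum_congr rfl fun y _ => ?_
    unfold rr
    rw [Finset.card_filter]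
    push_cast
    rfl
  rw [← h2]
  exact_mod_cast h1

theorem tri_out (h : Core F N m ε) {C : Finset G} {M : ℝ} (hMN : 999 / 1000 ≤ M * N)
    (hCF : C ⊆ F) (hc : 998 / 1000 ≤ (C.card : ℝ) * M)
    (hT : ∀ y ∈ C, ∀ w ∈ C, 993 / 1000 * M ≤ TT F N y w) :
    ((tri C Fᶜ).card : ℝ) ≤ 1 / 1000 * (C.card : ℝ) ^ 3 := by
  classical
  have hN := h.Npos
  have hm := h.m1
  have he := h.eps0
  have hsm := h.small
  have hM : 0 < M := by
    by_contra hcon
    push Not at hcon
    have : M * N ≤ 0 := mul_nonpos_of_nonpos_of_nonneg hcon hN.le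
    linarith
  have hcn : (0 : ℝ) ≤ C.card := Nat.cast_nonneg _
  have hcpos : (0 : ℝ) < C.card := by
    rcases hcn.lt_or_eq with h1 | h1
    · exact h1
    · rw [← h1] at hc
      norm_num at hc
  have hCne : C.Nonempty := Finset.card_pos.1 (by exact_mod_cast hcpos)
  have hm3 : m ^ 3 * ε ≤ 1 / 2 ^ 24 := by
    rw [le_div_iff₀ (by positivity)]
    nlinarith [hsm]
  have hm31 : (1 : ℝ) ≤ m ^ 3 := one_le_pow₀ hm
  have heps : ε ≤ 1 / 2 ^ 24 := by
    have : ε ≤ m ^ 3 * ε := by nlinarith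
    linarith
  set S2 := (C ×ˢ C).image (fun p => p.1 + p.2) with hS2def
  set S3 := (C ×ˢ C ×ˢ C).image (fun p => p.1 + p.2.1 + p.2.2) with hS3def
  have hS2 : (S2.card : ℝ) * (993 / 1000 * M * N ^ 2) ^ 2 ≤ m * N ^ 3 * (1 + ε) := by
    rw [← sum_sq h]
    calc (S2.card : ℝ) * (993 / 1000 * M * N ^ 2) ^ 2
        = ∑ _s ∈ S2, (993 / 1000 * M * N ^ 2) ^ 2 := by rw [Finset.sum_const, nsmul_eq_mul]
      _ ≤ ∑ s ∈ S2, rr F s ^ 2 := by
          refine Finset.sum_le_sum fun s hs => ?_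
          obtain ⟨p, hp, rfl⟩ := Finset.mem_image.1 hs
          rw [Finset.mem_product] at hp
          have h2 := hT p.1 hp.1 p.2 hp.2
          unfold TT at h2
          rw [le_div_iff₀ (by positivity)] at h2
          exact pow_le_pow_left₀ (by positivity) h2 2
      _ ≤ ∑ z, rr F z ^ 2 :=
          Finset.sum_le_univ_sum_of_nonneg (fun z => sq_nonneg _)
  have hMNpos : 0 < M * N := mul_pos hM hN
  have hS2' : (S2.card : ℝ) * (M * N) ≤ 102 / 100 * m * C.card := by
    have h1 : (S2.card : ℝ) * M ^ 2 * N ≤ 1015 / 1000 * m := by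
      have h2 : (S2.card : ℝ) * (993 / 1000 * M * N ^ 2) ^ 2 =
          ((S2.card : ℝ) * M ^ 2 * N * (993 / 1000) ^ 2) * N ^ 3 := by ring
      have h3 : m * N ^ 3 * (1 + ε) = (m * (1 + ε)) * N ^ 3 := by ring
      rw [h2, h3] at hS2
      have h4 := le_of_mul_le_mul_right hS2 (by positivity)
      have h5 : m * (1 + ε) ≤ m * (1 + 1 / 2 ^ 24) :=
        mul_le_mul_of_nonneg_left (by linarith) (by linarith)
      have h6 : (S2.card : ℝ) * M ^ 2 * N * (993 / 1000) ^ 2 ≤ m * (1 + 1 / 2 ^ 24) := h4.trans h5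
      norm_num at h6
      have h7 : (0 : ℝ) ≤ (S2.card : ℝ) * M ^ 2 * N := by positivity
      nlinarith
    have h2 : (S2.card : ℝ) * (M * N) * M ≤ 102 / 100 * m * C.card * M := by
      have h3 : (S2.card : ℝ) * (M * N) * M = (S2.card : ℝ) * M ^ 2 * N := by ring
      have h4 : 102 / 100 * m * C.card * M = 102 / 100 * m * (C.card * M) := by ring
      rw [h3, h4]
      have h5 : 102 / 100 * m * (998 / 1000) ≤ 102 / 100 * m * (C.card * M) :=
        mul_le_mul_of_nonneg_left hc (by linarith)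
      nlinarith
    exact le_of_mul_le_mul_right h2 hM
  have hκ : (S2.card : ℝ) ≤ (102 / 100 * m / (M * N)) * C.card := by
    rw [div_mul_eq_mul_div, le_div_iff₀ hMNpos]
    exact hS2'
  have hS3 := triple_card C hCne hκ
  rw [← hS3def] at hS3
  have htri : ((tri C Fᶜ).card : ℝ) ≤ (S3.card : ℝ) * (N ^ 2 * ε) := by
    have h1 : (tri C Fᶜ).card =
        ∑ z ∈ S3, ((tri C Fᶜ).filter (fun p => p.1 + p.2.1 + p.2.2 = z)).card := by
      refine Finset.card_eq_sum_card_fiberwise ?_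
      intro p hp
      rw [Finset.mem_coe] at hp ⊢
      unfold tri at hp
      rw [Finset.mem_filter] at hp
      exact Finset.mem_image_of_mem _ hp.1
    rw [h1]
    push_cast
    calc ∑ z ∈ S3, (((tri C Fᶜ).filter (fun p => p.1 + p.2.1 + p.2.2 = z)).card : ℝ)
        ≤ ∑ _z ∈ S3, (N ^ 2 * ε) := by
          refine Finset.sum_le_sum fun z _ => ?_
          by_cases hz : z ∈ F
          · have h2 : (tri C Fᶜ).filter (fun p => p.1 + p.2.1 + p.2.2 = z) = ∅ := by
              rw [Finset.filter_eq_empty_iff]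
              intro p hp hpz
              unfold tri at hp
              rw [Finset.mem_filter, Finset.mem_compl] at hp
              exact hp.2 (hpz ▸ hz)
            rw [h2]
            simp only [Finset.card_empty, Nat.cast_zero]
            positivity
          · refine (fiber_le h.two hCF _ z).trans ?_
            rw [h.clo z]
            unfold ind
            rw [if_neg hz, zero_add]
      _ = (S3.card : ℝ) * (N ^ 2 * ε) := by rw [Finset.sum_const, nsmul_eq_mul]
  refine htri.trans ?_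
  have h8 : (S3.card : ℝ) * (N ^ 2 * ε) ≤
      ((102 / 100 * m / (M * N)) ^ 3 * C.card) * (N ^ 2 * ε) :=
    mul_le_mul_of_nonneg_right hS3 (by positivity)
  refine h8.trans ?_
  have h9 : ((102 / 100 * m / (M * N)) ^ 3 * C.card) * (N ^ 2 * ε) =
      ((102 / 100) ^ 3 * (m ^ 3 * ε) / (M ^ 3 * N)) * C.card := by
    field_simp
  rw [h9]
  have h10 : 1 / 1000 * (C.card : ℝ) ^ 3 = (1 / 1000 * (C.card : ℝ) ^ 2) * C.card := by ring
  rw [h10]
  refine mul_le_mul_of_nonneg_right ?_ hcn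
  rw [div_le_iff₀ (by positivity)]
  have h11 : 1 / 1000 * (C.card : ℝ) ^ 2 * (M ^ 3 * N) =
      1 / 1000 * ((C.card : ℝ) * M) ^ 2 * (M * N) := by ring
  rw [h11]
  have h12 : (998 / 1000 : ℝ) ^ 2 ≤ ((C.card : ℝ) * M) ^ 2 :=
    pow_le_pow_left₀ (by norm_num) hc 2
  have h13 : (998 / 1000 : ℝ) ^ 2 * (999 / 1000) ≤ ((C.card : ℝ) * M) ^ 2 * (M * N) :=
    mul_le_mul h12 hMN (by norm_num) (by positivity)
  have h14 : (102 / 100 : ℝ) ^ 3 * (m ^ 3 * ε) ≤ (102 / 100) ^ 3 * (1 / 2 ^ 24) :=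
    mul_le_mul_of_nonneg_left hm3 (by norm_num)
  have h15 : (102 / 100 : ℝ) ^ 3 * (1 / 2 ^ 24) ≤ 1 / 1000 * ((998 / 1000 : ℝ) ^ 2 * (999 / 1000)) := by
    norm_num
  linarith

end Pool.Agent.Work.MP_79d924_lc.FS
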