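import Pool.Agent.Work.MP_79d924_lc.FS.Bas

/-!
MODULE Sb (M).  A set with almost maximal energy is close to a coset of a subgroup.

Let `c = |C|`, `n(s) = rr C s` (number of `y ∈ C` with `y + s ∈ C`, `n(s) ≤ c`, `∑_s n(s) = c^2`).
(1) `∑_{y1, y2 ∈ C} n(y1 + y2) = |tri C C| ≥ 0.988 c^3`.  Let `S = {s | n(s) ≥ (11/12) c}`.  For a pair with `y1 + y2 ∉ S` the
deficit `c - n(y1 + y2)` is more than `c/12`, so there are at most `0.144 c^2` such pairs; at least `0.856 c^2` pairs have their sum in
`S`, each `s ∈ S` has `n(s) ≤ c` pairs, so `|S| ≥ 0.856 c`.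
(2) for `s, s' ∈ S`: `n(s + s') ≥ (5/6) c`: the sets `{y ∈ C | y + s ∈ C}` and `{y ∈ C | y + s' ∈ C}` have at least `(11/12) c` elements,
so at least `(5/6) c` common ones, and `y + s` runs through elements `u` of `C` with `u + (s + s') ∈ C`.
Let `H = S + S = {s + s' | s, s' ∈ S}`; `|H| (5/6) c ≤ ∑ n = c^2`, so `|H| ≤ (6/5) c < (3/2) * 0.856 c ≤ (3/2) |S|`.
(3) `H` is a subgroup: `0 = s + s ∈ H`.  For `g = a + b ∈ H` (`a, b ∈ S`) the translates `S + a`, `S + b` are in `H`, so
`|(S + a) ∩ (S + b)| ≥ 2 |S| - |H| > |S| / 2`, i.e. more than `|S|/2` elements `t ∈ S` have `t + g ∈ S`.  For `g, g' ∈ H`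
there is a common `t ∈ S`: `g + g' = (t + g) + (t + g') ∈ H`.
(4) `H ⊇ S + s0` for any `s0 ∈ S`, so `|H| ≥ |S| ≥ 0.856 c`.  For `s ∈ H`: `n(s) ≥ (5/6) c > 0`.
(5) `∑_{y ∈ C} |C ∩ (y + H)| = ∑_{s ∈ H} n(s) ≥ |H| (5/6) c`, so some `y ∈ C` has `|C ∩ (y + H)| ≥ (5/6) |H|`.
-/

set_option autoImplicit false

namespace Pool.Agent.Work.MP_79d924_lc.FS

open Finset

variable {G : Type} [AddCommGroup G] [Fintype G] [DecidableEq G]

private theorem rr_union {C : Finset G} (two : ∀ x : G, x + x = 0) (s s' : G) :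
    rr C s + rr C s' ≤ C.card + rr C (s + s') := by
  unfold rr
  have h1 : ((C.filter (fun y => y + s ∈ C)) ∩ (C.filter (fun y => y + s' ∈ C))).card ≤
      (C.filter (fun y => y + (s + s') ∈ C)).card := by
    apply Finset.card_le_card_of_injOn (fun y => y + s)
    · intro y hy
      have hy' := hy
      simp only [Finset.coe_inter, Set.mem_inter_iff, Finset.mem_coe, Finset.mem_filter] at hy'
      simp only [Finset.mem_coe, Finset.mem_filter]
      refine ⟨hy'.1.2, ?_⟩
      have e : y + s + (s + s') = y + s' := by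
        calc y + s + (s + s') = (s + s) + (y + s') := by abel
          _ = y + s' := by rw [two, zero_add]
      rw [e]
      exact hy'.2.2
    · intro x _ y _ hxy
      exact add_right_cancel hxy
  have h2 := Finset.card_union_add_card_inter (C.filter (fun y => y + s ∈ C))
    (C.filter (fun y => y + s' ∈ C))
  have h3 : ((C.filter (fun y => y + s ∈ C)) ∪ (C.filter (fun y => y + s' ∈ C))).card ≤ C.card := by
    apply Finset.card_le_card
    exact Finset.union_subset (Finset.filter_subset _ _) (Finset.filter_subset _ _)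
  have h4 : (C.filter (fun y => y + s ∈ C)).card + (C.filter (fun y => y + s' ∈ C)).card ≤
      C.card + (C.filter (fun y => y + (s + s') ∈ C)).card := by omega
  exact_mod_cast h4

private theorem tri_eq (two : ∀ x : G, x + x = 0) (C : Finset G) :
    ((tri C C).card : ℝ) = ∑ z, rr C z * rr C z := by
  rw [← sum_rr two C (fun z => rr C z)]
  unfold tri
  rw [Finset.card_filter]
  push_cast
  rw [Finset.sum_product]
  apply Finset.sum_congr rfl
  intro x _
  rw [Finset.sum_product]
  apply Finset.sum_congr rfl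
  intro y _
  rw [rr_eq]
  apply Finset.sum_congr rfl
  intro b _
  unfold ind
  have e : b + (x + y) = x + y + b := by abel
  rw [e]

theorem sub_of_energy (two : ∀ x : G, x + x = 0) {C : Finset G} (hC : C.Nonempty)
    (hE : 988 / 1000 * (C.card : ℝ) ^ 3 ≤ ((tri C C).card : ℝ)) :
    ∃ H : Finset G, IsSub H ∧ 856 / 1000 * (C.card : ℝ) ≤ (H.card : ℝ) ∧
      (∀ s ∈ H, ∃ y ∈ C, y + s ∈ C) ∧
      ∃ y ∈ C, 5 / 6 * (H.card : ℝ) ≤ ((C ∩ cs y H).card : ℝ) := by
  classical
  have hc : (0 : ℝ) < C.card := by exact_mod_cast hC.card_pos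
  set c : ℝ := (C.card : ℝ) with hcdef
  rw [tri_eq two] at hE
  have hsum : ∑ z, rr C z = c ^ 2 := by
    have h := sum_rr two C (fun _ => (1 : ℝ))
    simp only [mul_one, Finset.sum_const, nsmul_eq_mul] at h
    rw [← h, ← hcdef]
    ring
  let S : Finset G := univ.filter (fun s => 11 / 12 * c ≤ rr C s)
  have hSmem : ∀ s, s ∈ S ↔ 11 / 12 * c ≤ rr C s := by
    intro s
    simp [S]
  -- step 1
  have hdef : ∑ z, rr C z * (c - rr C z) ≤ 12 / 1000 * c ^ 3 := by
    have e : ∑ z, rr C z * (c - rr C z) = c * ∑ z, rr C z - ∑ z, rr C z * rr C z := by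
      rw [Finset.mul_sum, ← Finset.sum_sub_distrib]
      apply Finset.sum_congr rfl
      intro z _
      ring
    rw [e, hsum]
    nlinarith [hE]
  have hout : ∑ z ∈ univ.filter (fun z => z ∉ S), rr C z ≤ 144 / 1000 * c ^ 2 := by
    have h1 : ∑ z ∈ univ.filter (fun z => z ∉ S), rr C z * (c / 12) ≤
        ∑ z, rr C z * (c - rr C z) := by
      calc ∑ z ∈ univ.filter (fun z => z ∉ S), rr C z * (c / 12)
          ≤ ∑ z ∈ univ.filter (fun z => z ∉ S), rr C z * (c - rr C z) := by
            apply Finset.sum_le_sum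
            intro z hz
            have hz' : z ∉ S := (Finset.mem_filter.1 hz).2
            rw [hSmem, not_le] at hz'
            apply mul_le_mul_of_nonneg_left _ (rr_nonneg C z)
            linarith
        _ ≤ ∑ z, rr C z * (c - rr C z) := by
            apply Finset.sum_le_sum_of_subset_of_nonneg (Finset.filter_subset _ _)
            intro z _ _
            exact mul_nonneg (rr_nonneg C z) (sub_nonneg.2 (rr_le C z))
    rw [← Finset.sum_mul] at h1
    have h2 := h1.trans hdef
    have h3 : (∑ z ∈ univ.filter (fun z => z ∉ S), rr C z) * (c / 12) ≤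
        (144 / 1000 * c ^ 2) * (c / 12) := by
      calc _ ≤ 12 / 1000 * c ^ 3 := h2
        _ = (144 / 1000 * c ^ 2) * (c / 12) := by ring
    exact le_of_mul_le_mul_right h3 (by positivity)
  have hin : 856 / 1000 * c ^ 2 ≤ ∑ z ∈ S, rr C z := by
    have h := Finset.sum_filter_add_sum_filter_not univ (fun z => z ∈ S) (fun z => rr C z)
    rw [hsum] at h
    have e : univ.filter (fun z => z ∈ S) = S := by
      ext z
      simp
    rw [e] at h
    linarith
  have hScard : 856 / 1000 * c ≤ (S.card : ℝ) := by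
    have h1 : ∑ z ∈ S, rr C z ≤ (S.card : ℝ) * c := by
      calc ∑ z ∈ S, rr C z ≤ ∑ _z ∈ S, c := Finset.sum_le_sum (fun z _ => rr_le C z)
        _ = (S.card : ℝ) * c := by rw [Finset.sum_const, nsmul_eq_mul]
    have h2 : (856 / 1000 * c) * c ≤ (S.card : ℝ) * c := by
      calc (856 / 1000 * c) * c = 856 / 1000 * c ^ 2 := by ring
        _ ≤ _ := hin.trans h1
    exact le_of_mul_le_mul_right h2 hc
  have hSne : S.Nonempty := by
    rw [← Finset.card_pos]
    have : (0 : ℝ) < S.card := lt_of_lt_of_le (by positivity) hScard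
    exact_mod_cast this
  obtain ⟨s0, hs0⟩ := hSne
  -- step 2
  let H : Finset G := univ.filter (fun h => ∃ s ∈ S, ∃ s' ∈ S, s + s' = h)
  have hHmem : ∀ h, h ∈ H ↔ ∃ s ∈ S, ∃ s' ∈ S, s + s' = h := by
    intro h
    simp [H]
  have hHr : ∀ h ∈ H, 5 / 6 * c ≤ rr C h := by
    intro h hh
    obtain ⟨s, hs, s', hs', rfl⟩ := (hHmem h).1 hh
    have h1 := rr_union (C := C) two s s'
    rw [hSmem] at hs hs'
    rw [← hcdef] at h1
    linarith
  have hHsum : (H.card : ℝ) * (5 / 6 * c) ≤ ∑ z ∈ H, rr C z := by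
    rw [← nsmul_eq_mul, ← Finset.sum_const]
    exact Finset.sum_le_sum hHr
  have hHcard : (H.card : ℝ) ≤ 6 / 5 * c := by
    have h1 : ∑ z ∈ H, rr C z ≤ c ^ 2 := by
      rw [← hsum]
      exact Finset.sum_le_sum_of_subset_of_nonneg (Finset.subset_univ _)
        (fun z _ _ => rr_nonneg C z)
    have h2 : (H.card : ℝ) * (5 / 6 * c) ≤ (6 / 5 * c) * (5 / 6 * c) := by
      calc _ ≤ c ^ 2 := hHsum.trans h1
        _ = _ := by ring
    exact le_of_mul_le_mul_right h2 (by positivity)
  have htrans : ∀ a ∈ S, (S.image (fun t => t + a)) ⊆ H := by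
    intro a ha u hu
    obtain ⟨t, ht, rfl⟩ := Finset.mem_image.1 hu
    exact (hHmem _).2 ⟨t, ht, a, ha, rfl⟩
  have htcard : ∀ a : G, (S.image (fun t => t + a)).card = S.card := by
    intro a
    exact Finset.card_image_of_injective _ (fun x y hxy => add_right_cancel hxy)
  have hSH : (S.card : ℝ) ≤ (H.card : ℝ) := by
    have := Finset.card_le_card (htrans s0 hs0)
    rw [htcard] at this
    exact_mod_cast this
  -- step 3
  have hhalf : ∀ g ∈ H, (S.card : ℝ) < 2 * ((S.filter (fun t => t + g ∈ S)).card : ℝ) := by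
    intro g hg
    obtain ⟨a, ha, b, hb, rfl⟩ := (hHmem g).1 hg
    have h1 : ((S.image (fun t => t + a)) ∩ (S.image (fun t => t + b))).card ≤
        (S.filter (fun t => t + (a + b) ∈ S)).card := by
      apply Finset.card_le_card_of_injOn (fun u => u + a)
      · intro u hu
        have hu' := hu
        simp only [Finset.coe_inter, Set.mem_inter_iff, Finset.mem_coe, Finset.mem_image] at hu'
        obtain ⟨⟨t, ht, h1⟩, ⟨t', ht', h2⟩⟩ := hu'
        simp only [Finset.mem_coe, Finset.mem_filter]
        constructor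
        · have e : u + a = t := by
            rw [← h1, add_assoc, two, add_zero]
          rw [e]
          exact ht
        · have e : u + a + (a + b) = t' := by
            calc u + a + (a + b) = u + b + (a + a) := by abel
              _ = u + b := by rw [two, add_zero]
              _ = t' + b + b := by rw [h2]
              _ = t' := by rw [add_assoc, two, add_zero]
          rw [e]
          exact ht'
      · intro x _ y _ hxy
        exact add_right_cancel hxy
    have h2 := Finset.card_union_add_card_inter (S.image (fun t => t + a)) (S.image (fun t => t + b))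
    rw [htcard, htcard] at h2
    have h3 : ((S.image (fun t => t + a)) ∪ (S.image (fun t => t + b))).card ≤ H.card :=
      Finset.card_le_card (Finset.union_subset (htrans a ha) (htrans b hb))
    have h4 : S.card + S.card ≤ H.card + (S.filter (fun t => t + (a + b) ∈ S)).card := by omega
    have h5 : (S.card : ℝ) + S.card ≤ H.card + ((S.filter (fun t => t + (a + b) ∈ S)).card : ℝ) := by
      exact_mod_cast h4
    linarith
  have hsub : IsSub H := by
    refine ⟨(hHmem 0).2 ⟨s0, hs0, s0, hs0, two s0⟩, ?_⟩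
    intro g hg g' hg'
    have h1 := hhalf g hg
    have h2 := hhalf g' hg'
    have h3 := Finset.card_union_add_card_inter (S.filter (fun t => t + g ∈ S))
      (S.filter (fun t => t + g' ∈ S))
    have h4 : ((S.filter (fun t => t + g ∈ S)) ∪ (S.filter (fun t => t + g' ∈ S))).card ≤ S.card :=
      Finset.card_le_card (Finset.union_subset (Finset.filter_subset _ _) (Finset.filter_subset _ _))
    have h5 : 0 < ((S.filter (fun t => t + g ∈ S)) ∩ (S.filter (fun t => t + g' ∈ S))).card := by
      have h1' : S.card < 2 * (S.filter (fun t => t + g ∈ S)).card := by exact_mod_cast h1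
      have h2' : S.card < 2 * (S.filter (fun t => t + g' ∈ S)).card := by exact_mod_cast h2
      omega
    obtain ⟨t, ht⟩ := Finset.card_pos.1 h5
    simp only [Finset.mem_inter, Finset.mem_filter] at ht
    refine (hHmem _).2 ⟨t + g, ht.1.2, t + g', ht.2.2, ?_⟩
    calc t + g + (t + g') = (t + t) + (g + g') := by abel
      _ = g + g' := by rw [two, zero_add]
  refine ⟨H, hsub, hScard.trans hSH, ?_, ?_⟩
  · intro s hs
    have h1 : 0 < rr C s := lt_of_lt_of_le (by positivity) (hHr s hs)
    unfold rr at h1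
    have h2 : 0 < (C.filter (fun y => y + s ∈ C)).card := by exact_mod_cast h1
    obtain ⟨y, hy⟩ := Finset.card_pos.1 h2
    rw [Finset.mem_filter] at hy
    exact ⟨y, hy.1, hy.2⟩
  · have h1 : ∑ y ∈ C, ((C ∩ cs y H).card : ℝ) = ∑ z ∈ H, rr C z := by
      have h2 := sum_rr two C (fun z => if z ∈ H then (1 : ℝ) else 0)
      have h3 : ∑ z, rr C z * (if z ∈ H then (1 : ℝ) else 0) = ∑ z ∈ H, rr C z := by
        simp only [mul_ite, mul_one, mul_zero]
        rw [← Finset.sum_filter]
        congr 1
        ext z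
        simp
      rw [← h3, ← h2]
      apply Finset.sum_congr rfl
      intro y _
      rw [Finset.sum_boole]
      congr 2
      ext x
      simp only [cs, Finset.mem_inter, Finset.mem_filter, Finset.mem_univ, true_and]
      rw [add_comm x y]
    have h4 : ∑ _y ∈ C, 5 / 6 * (H.card : ℝ) ≤ ∑ y ∈ C, ((C ∩ cs y H).card : ℝ) := by
      rw [h1, Finset.sum_const, nsmul_eq_mul, ← hcdef]
      refine le_trans (le_of_eq ?_) hHsum
      ring
    exact Finset.exists_le_of_sum_le hC h4

end Pool.Agent.Work.MP_79d924_lc.FS
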