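import Pool.Agent.Work.MP_79d924_lc.FS.Fil

/-!
MODULE Siz (M).  The subgroup has exactly `N` elements.

Let `P = y + H ⊆ F`, `D(q) = ∑_{s ∈ H} rr (s + q)`, `D0 = D(0)`.
(1) `D0 = ∑_{u ∈ F} |F ∩ (u + H)|` (pairs `(u, v) ∈ F^2` with `u + v ∈ H`).  For `u ∈ P`: `|F ∩ (u + H)| = |P| = |H|`, in total `|H|^2`.
(2) for `u ∈ F \ P` (then `u + H` is disjoint from `P`): `D(y + u) ≥ 2 |H| |F ∩ (u + H)|`: `D(y + u)` is the number of pairs
`(a, b) ∈ F^2` with `a + b ∈ y + u + H`, and the pairs `a ∈ P`, `b ∈ F ∩ (u + H)` and `a ∈ F ∩ (u + H)`, `b ∈ P` are different.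
(3) `∑_{u ∈ F} D(y + u) = ∑_{s ∈ H} ∑_{u ∈ F} rr (s + y + u) = |H| N^2 (1 + ε)` (`clo`, `s + y ∈ P ⊆ F`), and for `u ∈ P`
`D(y + u) = D0`; so `∑_{u ∈ F \ P} D(y + u) = |H| (N^2 (1 + ε) - D0)`.
(4) `D0 ≤ |H|^2 + (N^2 (1+ε) - D0)/2`, so `|H|^2 ≥ (3/2) D0 - N^2 (1+ε)/2 ≥ N^2 (3/2 * 0.84 - 0.51) = 0.75 N^2`.
With `coset_le`: `0.75 N^2 ≤ |H|^2 ≤ 1.01 N^2`, and `|H| = 2^a`, `N = 2^b`, so `a = b`.
-/

set_option autoImplicit false

namespace Pool.Agent.Work.MP_79d924_lc.FS

open Finset

variable {G : Type} [AddCommGroup G] [Fintype G] [DecidableEq G] {F : Finset G} {N m ε : ℝ}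

private theorem mem_cs {x y : G} {H : Finset G} : x ∈ cs y H ↔ x + y ∈ H := by
  simp [cs]

/-- the coset depends only on the class modulo `H` -/
private theorem cs_add (two : ∀ x : G, x + x = 0) {H : Finset G} (hH : IsSub H) (u : G) {s : G}
    (hs : s ∈ H) : cs (u + s) H = cs u H := by
  ext x
  rw [mem_cs, mem_cs]
  constructor
  · intro h
    have h1 := hH.2 _ h _ hs
    have e : x + (u + s) + s = x + u := by
      calc x + (u + s) + s = x + u + (s + s) := by abel
        _ = x + u := by rw [two, add_zero]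
    rw [e] at h1
    exact h1
  · intro h
    have h1 := hH.2 _ h _ hs
    have e : x + (u + s) = x + u + s := by abel
    rw [e]
    exact h1

/-- number of elements of `F` in the coset of `u` -/
private def cc (F H : Finset G) (u : G) : ℝ := ((F ∩ cs u H).card : ℝ)

private theorem cc_nonneg (F H : Finset G) (u : G) : 0 ≤ cc F H u := Nat.cast_nonneg _

private theorem sum_ind_cc (two : ∀ x : G, x + x = 0) (F H : Finset G) (u : G) :
    ∑ s ∈ H, ind F (u + s) = cc F H u := by
  unfold ind cc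
  rw [Finset.sum_boole]
  congr 1
  have h : F ∩ cs u H = (H.filter (fun s => u + s ∈ F)).map (Equiv.addLeft u).toEmbedding := by
    ext x
    simp only [mem_inter, mem_cs, mem_map, mem_filter, Equiv.toEmbedding_apply, Equiv.coe_addLeft]
    constructor
    · rintro ⟨h1, h2⟩
      refine ⟨x + u, ⟨h2, ?_⟩, ?_⟩
      · have e : u + (x + u) = x := by
          calc u + (x + u) = (u + u) + x := by abel
            _ = x := by rw [two, zero_add]
        rw [e]
        exact h1
      · calc u + (x + u) = (u + u) + x := by abel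
          _ = x := by rw [two, zero_add]
    · rintro ⟨s, ⟨h1, h2⟩, rfl⟩
      refine ⟨h2, ?_⟩
      have e : u + s + u = s := by
        calc u + s + u = (u + u) + s := by abel
          _ = s := by rw [two, zero_add]
      rw [e]
      exact h1
  rw [h, card_map]

/-- `D(q)` as a sum of the coset counts -/
private theorem D_eq (two : ∀ x : G, x + x = 0) (F H : Finset G) (q : G) :
    ∑ s ∈ H, rr F (s + q) = ∑ b ∈ F, cc F H (b + q) := by
  have h1 : ∀ s ∈ H, rr F (s + q) = ∑ b ∈ F, ind F (b + q + s) := by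
    intro s _
    rw [rr_eq]
    refine Finset.sum_congr rfl (fun b _ => ?_)
    congr 1
    abel
  rw [Finset.sum_congr rfl h1, Finset.sum_comm]
  exact Finset.sum_congr rfl (fun b _ => sum_ind_cc two F H (b + q))

theorem size_sq (h : Core F N m ε) {H : Finset G} (hH : IsSub H) {y : G} (hy : cs y H ⊆ F)
    (hD : 84 / 100 * N ^ 2 ≤ ∑ s ∈ H, rr F s) : 75 / 100 * N ^ 2 ≤ (H.card : ℝ) ^ 2 := by
  have two := h.two
  have hHpos : (0 : ℝ) < H.card := by
    have : 0 < H.card := card_pos.mpr ⟨0, hH.1⟩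
    exact_mod_cast this
  -- small epsilon
  have hN := h.Npos
  have he0 := h.eps0
  have he : ε ≤ 1 / 100 := by
    have hs := h.small
    have hm := h.m1
    have hm3 : (1 : ℝ) ≤ m ^ 3 := one_le_pow₀ hm
    have h1 : ε ≤ m ^ 3 * ε := by nlinarith
    nlinarith
  set P := cs y H with hP
  have hPcard : P.card = H.card := cs_card y H
  -- coset counts
  have hccP : ∀ u ∈ P, cc F H u = H.card := by
    intro u hu
    have e : cs u H = P := by
      rw [hP, mem_cs] at hu
      have h1 := cs_add two hH y hu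
      have e2 : y + (u + y) = u := by
        calc y + (u + y) = (y + y) + u := by abel
          _ = u := by rw [two, zero_add]
      rw [e2] at h1
      rw [hP]
      exact h1
    unfold cc
    rw [e, inter_eq_right.mpr hy, hPcard]
  -- D0
  have hD0 : ∑ s ∈ H, rr F s = ∑ b ∈ F, cc F H b := by
    have h1 := D_eq two F H 0
    simpa using h1
  have hsplit : ∀ g : G → ℝ, ∑ u ∈ F, g u = ∑ u ∈ P, g u + ∑ u ∈ F \ P, g u := by
    intro g
    rw [add_comm]
    exact (Finset.sum_sdiff hy).symm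
  have hD0' : ∑ s ∈ H, rr F s = (H.card : ℝ) ^ 2 + ∑ u ∈ F \ P, cc F H u := by
    rw [hD0, hsplit, Finset.sum_congr rfl hccP, Finset.sum_const, nsmul_eq_mul, hPcard]
    ring
  -- the total
  have htot : ∑ u ∈ F, ∑ s ∈ H, rr F (s + (y + u)) = H.card * (N ^ 2 * (1 + ε)) := by
    rw [Finset.sum_comm]
    have h1 : ∀ s ∈ H, ∑ u ∈ F, rr F (s + (y + u)) = N ^ 2 * (1 + ε) := by
      intro s hs
      have h2 := h.clo (s + y)
      have h3 : ind F (s + y) = 1 := by
        unfold ind
        rw [if_pos]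
        apply hy
        rw [hP, mem_cs]
        have e : s + y + y = s := by rw [add_assoc, two, add_zero]
        rw [e]
        exact hs
      rw [h3] at h2
      rw [← h2]
      refine Finset.sum_congr rfl (fun u _ => ?_)
      rw [add_assoc]
    rw [Finset.sum_congr rfl h1, Finset.sum_const, nsmul_eq_mul]
  have hPD : ∀ u ∈ P, ∑ s ∈ H, rr F (s + (y + u)) = ∑ s ∈ H, rr F s := by
    intro u hu
    rw [hP, mem_cs] at hu
    rw [D_eq two F H (y + u), hD0]
    refine Finset.sum_congr rfl (fun b _ => ?_)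
    unfold cc
    rw [add_comm y u, cs_add two hH b hu]
  have hQD : ∀ u ∈ F \ P, 2 * (H.card : ℝ) * cc F H u ≤ ∑ s ∈ H, rr F (s + (y + u)) := by
    intro u hu
    rw [mem_sdiff] at hu
    obtain ⟨huF, huP⟩ := hu
    rw [D_eq two F H (y + u)]
    have hdisj : Disjoint P (F ∩ cs u H) := by
      rw [Finset.disjoint_left]
      intro b hb hb2
      have hb3 := (mem_inter.mp hb2).2
      rw [hP, mem_cs] at hb
      rw [mem_cs] at hb3
      apply huP
      rw [hP, mem_cs]
      have h1 := hH.2 _ hb _ hb3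
      have e : b + y + (b + u) = u + y := by
        calc b + y + (b + u) = (b + b) + (u + y) := by abel
          _ = u + y := by rw [two, zero_add]
      rw [e] at h1
      exact h1
    have hsub : P ∪ (F ∩ cs u H) ⊆ F := union_subset hy inter_subset_left
    have h1 : ∑ b ∈ P ∪ (F ∩ cs u H), cc F H (b + (y + u)) ≤ ∑ b ∈ F, cc F H (b + (y + u)) :=
      Finset.sum_le_sum_of_subset_of_nonneg hsub (fun b _ _ => cc_nonneg F H _)
    rw [Finset.sum_union hdisj] at h1
    have h2 : ∀ b ∈ P, cc F H (b + (y + u)) = cc F H u := by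
      intro b hb
      rw [hP, mem_cs] at hb
      unfold cc
      have e : b + (y + u) = u + (b + y) := by abel
      rw [e, cs_add two hH u hb]
    have h3 : ∀ b ∈ F ∩ cs u H, cc F H (b + (y + u)) = H.card := by
      intro b hb
      have hb3 := (mem_inter.mp hb).2
      rw [mem_cs] at hb3
      have e : b + (y + u) = y + (b + u) := by abel
      have h4 : cc F H (b + (y + u)) = cc F H y := by
        unfold cc
        rw [e, cs_add two hH y hb3]
      rw [h4]
      apply hccP
      rw [hP, mem_cs, two]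
      exact hH.1
    rw [Finset.sum_congr rfl h2, Finset.sum_congr rfl h3, Finset.sum_const, Finset.sum_const,
      nsmul_eq_mul, nsmul_eq_mul, hPcard] at h1
    have h5 : ((F ∩ cs u H).card : ℝ) = cc F H u := rfl
    rw [h5] at h1
    linarith
  have hge : H.card * (∑ s ∈ H, rr F s) + 2 * (H.card : ℝ) * (∑ u ∈ F \ P, cc F H u)
      ≤ H.card * (N ^ 2 * (1 + ε)) := by
    rw [← htot, hsplit, Finset.sum_congr rfl hPD, Finset.sum_const, nsmul_eq_mul, hPcard,
      Finset.mul_sum (s := F \ P)]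
    have h1 := Finset.sum_le_sum hQD
    linarith
  -- divide by |H|
  have hge2 : (∑ s ∈ H, rr F s) + 2 * (∑ u ∈ F \ P, cc F H u) ≤ N ^ 2 * (1 + ε) := by
    have h1 : (H.card : ℝ) * ((∑ s ∈ H, rr F s) + 2 * (∑ u ∈ F \ P, cc F H u))
        ≤ H.card * (N ^ 2 * (1 + ε)) := by
      linarith
    exact le_of_mul_le_mul_left h1 hHpos
  have hN2 : (0 : ℝ) < N ^ 2 := by positivity
  have h6 : N ^ 2 * ε ≤ N ^ 2 * (1 / 100) := mul_le_mul_of_nonneg_left he hN2.le
  have h7 : ∑ u ∈ F \ P, cc F H u = (∑ s ∈ H, rr F s) - (H.card : ℝ) ^ 2 := by linarith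
  rw [h7] at hge2
  linarith

theorem size_eq (h : Core F N m ε) {H : Finset G} (hH : IsSub H) {y : G} (hy : cs y H ⊆ F)
    (hD : 84 / 100 * N ^ 2 ≤ ∑ s ∈ H, rr F s) {a b : ℕ} (ha : H.card = 2 ^ a)
    (hb : N = 2 ^ b) : (H.card : ℝ) = N := by
  have h1 := size_sq h hH hy hD
  have h2 := coset_le h hH hy
  have he : ε ≤ 1 := by
    have hs := h.small
    have hm := h.m1
    have he0 := h.eps0
    have hm3 : (1 : ℝ) ≤ m ^ 3 := one_le_pow₀ hm
    have h1 : ε ≤ m ^ 3 * ε := by nlinarith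
    nlinarith
  have hN := h.Npos
  have hN2 : (0 : ℝ) < N ^ 2 := by positivity
  have h3 : (H.card : ℝ) ^ 2 ≤ 2 * N ^ 2 := by nlinarith
  have hc : (H.card : ℝ) = 2 ^ a := by
    rw [ha]
    push_cast
    rfl
  rw [hc] at h1 h3 ⊢
  rw [hb] at h1 h3 hN2 ⊢
  have hab : a = b := by
    rcases lt_trichotomy a b with hlt | heq | hgt
    · exfalso
      have h4 : (2 : ℝ) ^ a * 2 ≤ 2 ^ b := by
        rw [← pow_succ]
        exact pow_le_pow_right₀ (by norm_num) hlt
      have h5 : (0 : ℝ) < 2 ^ a := by positivity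
      nlinarith
    · exact heq
    · exfalso
      have h4 : (2 : ℝ) ^ b * 2 ≤ 2 ^ a := by
        rw [← pow_succ]
        exact pow_le_pow_right₀ (by norm_num) hgt
      have h5 : (0 : ℝ) < 2 ^ b := by positivity
      nlinarith
  rw [hab]

end Pool.Agent.Work.MP_79d924_lc.FS
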