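import Pool.Agent.Work.MP_79d924_lc.FS.TKA

/-!
MODULE Tri (M).  Almost all triple sums of the cluster are in the cluster.

Fix `y3 ∈ C` and let `Z = {z ∈ F \ C | T(y3,z) ≥ 0.993 M}`.  By `TT_row`
`|Z| 0.993 M ≤ (1 + ε) - ∑_{z ∈ C} T(y3,z) ≤ 1 + ε - 0.993 M |C| ≤ 1 + ε - 0.993 * 0.998 ≤ 0.0091`, so
`|Z| ≤ 0.011 |C|` (multiply by `|C| ≥ 0.998 / M`).  If `y1, y2 ∈ C` and `z = y1 + y2 + y3 ∈ F \ C` then
`T(y3,z) = rr (y1 + y2) / N^2 = T(y1,y2)` (exponent 2), so `z ∈ Z`; for given `z` there are at most `|C|` pairs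
`(y1,y2)` (`y2` is determined by `y1`).  So at most `0.011 |C|^2` pairs for each `y3`, at most `0.011 |C|^3` triples with sum in
`F \ C`, and with `hout` at most `0.012 |C|^3` triples have their sum outside `C`.
-/

set_option autoImplicit false

namespace Pool.Agent.Work.MP_79d924_lc.FS

open Finset

variable {G : Type} [AddCommGroup G] [Fintype G] [DecidableEq G] {F : Finset G} {N m ε : ℝ}

private theorem card_triT (C S : Finset G) :
    (tri C S).card = ∑ a ∈ C, ∑ b ∈ C, (C.filter (fun x => a + b + x ∈ S)).card := by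
  unfold tri
  rw [card_filter, sum_product]
  refine sum_congr rfl (fun a _ => ?_)
  rw [sum_product]
  refine sum_congr rfl (fun b _ => ?_)
  rw [card_filter]

private theorem card_tri_union (C S T : Finset G) (hd : Disjoint S T) :
    (tri C (S ∪ T)).card = (tri C S).card + (tri C T).card := by
  unfold tri
  rw [← card_union_of_disjoint]
  · congr 1
    ext p
    simp only [mem_filter, mem_union]
    tauto
  · rw [disjoint_left]
    intro p h1 h2
    exact (disjoint_left.1 hd) (mem_filter.1 h1).2 (mem_filter.1 h2).2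

private theorem card_tri_univ (C : Finset G) : (tri C univ).card = C.card ^ 3 := by
  unfold tri
  rw [filter_true_of_mem (fun p _ => mem_univ _), card_product, card_product]
  ring

private theorem card_Z (h : Core F N m ε) {C : Finset G} {M : ℝ} (hM0 : 0 < M)
    (hCF : C ⊆ F) (hc : 998 / 1000 ≤ (C.card : ℝ) * M)
    (hT : ∀ y ∈ C, ∀ w ∈ C, 993 / 1000 * M ≤ TT F N y w) {y : G} (hy : y ∈ C) :
    ((((F \ C).filter (fun z => 993 / 1000 * M ≤ TT F N y z)).card : ℕ) : ℝ) ≤
      11 / 1000 * (C.card : ℝ) := by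
  set Z := (F \ C).filter (fun z => 993 / 1000 * M ≤ TT F N y z) with hZ
  have hd : Disjoint C Z := by
    rw [disjoint_left]
    intro z h1 h2
    exact (mem_sdiff.1 (mem_filter.1 h2).1).2 h1
  have hsub : C ∪ Z ⊆ F := by
    intro z hz
    rcases mem_union.1 hz with h1 | h1
    · exact hCF h1
    · exact (mem_sdiff.1 (mem_filter.1 h1).1).1
  have h1 : ∑ z ∈ C ∪ Z, TT F N y z ≤ 1 + ε := by
    rw [← TT_row h (hCF hy)]
    exact sum_le_sum_of_subset_of_nonneg hsub (fun z _ _ => TT_nonneg F N y z)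
  have h2 : ((C ∪ Z).card : ℝ) * (993 / 1000 * M) ≤ ∑ z ∈ C ∪ Z, TT F N y z := by
    rw [← nsmul_eq_mul]
    refine card_nsmul_le_sum _ _ _ (fun z hz => ?_)
    rcases mem_union.1 hz with h3 | h3
    · exact hT y hy z h3
    · exact (mem_filter.1 h3).2
  rw [card_union_of_disjoint hd] at h2
  push_cast at h2
  have hε : ε ≤ 1 / 10 ^ 5 := by
    have h3 := h.small
    have h4 := h.m1
    have h5 := h.eps0
    have h6 : (1 : ℝ) ≤ m ^ 3 := one_le_pow₀ h4
    have h7 : ε ≤ m ^ 3 * ε := by nlinarith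
    have h8 : (2 : ℝ) ^ 24 * m ^ 3 * ε = 2 ^ 24 * (m ^ 3 * ε) := by ring
    rw [h8] at h3
    norm_num at h3 ⊢
    linarith
  have h9 : 993 / 1000 * (M * (Z.card : ℝ)) ≤ 91 / 10000 := by
    nlinarith
  have h10 : M * (Z.card : ℝ) ≤ M * (11 / 1000 * (C.card : ℝ)) := by
    nlinarith
  exact le_of_mul_le_mul_left h10 hM0

theorem tri_in (h : Core F N m ε) {C : Finset G} {M : ℝ} (hM0 : 0 < M)
    (hCF : C ⊆ F) (hc : 998 / 1000 ≤ (C.card : ℝ) * M)
    (hT : ∀ y ∈ C, ∀ w ∈ C, 993 / 1000 * M ≤ TT F N y w)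
    (hout : ((tri C Fᶜ).card : ℝ) ≤ 1 / 1000 * (C.card : ℝ) ^ 3) :
    988 / 1000 * (C.card : ℝ) ^ 3 ≤ ((tri C C).card : ℝ) := by
  have h2 := h.two
  have hsum : (tri C C).card + (tri C (F \ C)).card + (tri C Fᶜ).card = C.card ^ 3 := by
    rw [← card_tri_union, ← card_tri_union, ← card_tri_univ]
    · congr 2
      ext z
      simp only [mem_union, mem_sdiff, mem_compl, mem_univ, iff_true]
      by_cases h1 : z ∈ C <;> by_cases h3 : z ∈ F <;> simp [h1, h3]
    · rw [disjoint_left]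
      intro z h1 h3
      rcases mem_union.1 h1 with h4 | h4
      · exact (mem_compl.1 h3) (hCF h4)
      · exact (mem_compl.1 h3) (mem_sdiff.1 h4).1
    · exact disjoint_sdiff
  have hmid : ((tri C (F \ C)).card : ℝ) ≤ 11 / 1000 * (C.card : ℝ) ^ 3 := by
    rw [card_triT]
    push_cast
    have hb : ∀ a ∈ C, ∀ b ∈ C,
        (((C.filter (fun x => a + b + x ∈ F \ C)).card : ℕ) : ℝ) ≤ 11 / 1000 * (C.card : ℝ) := by
      intro a ha b hb
      refine le_trans ?_ (card_Z h hM0 hCF hc hT ha)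
      norm_cast
      refine card_le_card_of_injOn (fun x => a + b + x) ?_ ?_
      · intro x hx
        rw [mem_coe, mem_filter] at hx
        rw [mem_coe, mem_filter]
        refine ⟨hx.2, ?_⟩
        have h3 : TT F N a (a + b + x) = TT F N b x := by
          unfold TT
          have h4 : a + (a + b + x) = b + x := by
            calc a + (a + b + x) = (a + a) + (b + x) := by abel
              _ = b + x := by rw [h2, zero_add]
          rw [h4]
        rw [h3]
        exact hT b hb x hx.1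
      · intro x _ y _ hxy
        exact add_left_cancel hxy
    calc ∑ a ∈ C, ∑ b ∈ C, (((C.filter (fun x => a + b + x ∈ F \ C)).card : ℕ) : ℝ)
        ≤ ∑ a ∈ C, ∑ b ∈ C, 11 / 1000 * (C.card : ℝ) :=
          sum_le_sum (fun a ha => sum_le_sum (fun b hb' => hb a ha b hb'))
      _ = 11 / 1000 * (C.card : ℝ) ^ 3 := by
          rw [sum_const, sum_const, nsmul_eq_mul, nsmul_eq_mul]
          ring
  have hsum' : ((tri C C).card : ℝ) + ((tri C (F \ C)).card : ℝ) + ((tri C Fᶜ).card : ℝ) =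
      (C.card : ℝ) ^ 3 := by
    exact_mod_cast hsum
  linarith

end Pool.Agent.Work.MP_79d924_lc.FS
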