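import Pool.Agent.Work.MP_79d924_lc.FS.Clu
import Pool.Agent.Work.MP_79d924_lc.FS.Out
import Pool.Agent.Work.MP_79d924_lc.FS.Tri
import Pool.Agent.Work.MP_79d924_lc.FS.Sb
import Pool.Agent.Work.MP_79d924_lc.FS.Siz
import Pool.Agent.Work.MP_79d924_lc.FS.InP

/-!
MODULE NF (M).  An almost maximal vertex is in a coset of size `N` contained in `F`.

`M = K(x0,x0)`, `M N ≥ 0.999` (as `θ ≤ 9/2^24`), `M ≤ (m/N)(1 + ε)` (`TT_le`, `TT_row`).
`cluster`, `tri_out`, `tri_in`, `sub_of_energy` give `C`, `H`, `y ∈ C` with `|C ∩ (y + H)| ≥ (5/6)|H|`, `|H| ≥ 0.856 |C|`,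
`|H| M ≥ 0.856 * 0.998 ≥ 0.854`.  So `(5/9)|H|^2 ≥ (5/9) 0.854^2 / M^2 ≥ 0.4 N^2 / (m (1+ε))^2 > N^2 ε` (`small`), and `fill` gives
`y + H ⊆ F`.  For `s ∈ H` there is `u ∈ C` with `u + s ∈ C`, so `rr s = N^2 T(u, u + s) ≥ 0.993 M N^2` (`u + (u + s) = s`) and
`∑_{s ∈ H} rr s ≥ 0.993 (|H| M) N^2 ≥ 0.84 N^2`.  `sub_pow`, `size_eq`: `|H| = N`.
`rr (x0 + u) = N^2 T(x0,u) ≥ 0.993 M N^2 ≥ (3/4) N` for `u ∈ C` (`x0 ∈ C`), so `mem_coset`: `x0 ∈ y + H`, and then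
`x0 + H = y + H`.
-/

set_option autoImplicit false

namespace Pool.Agent.Work.MP_79d924_lc.FS

open Finset

variable {G : Type} [AddCommGroup G] [Fintype G] [DecidableEq G] {F : Finset G} {N m ε : ℝ}

theorem near_max (h : Core F N m ε) {b : ℕ} (hb : N = 2 ^ b) {x0 : G} (hx : x0 ∈ F) {θ : ℝ}
    (hθ0 : 0 ≤ θ) (hθ : θ ≤ 9 * m ^ 3 * ε)
    (hmax : ∀ y ∈ F, KK F N y y ≤ (1 + θ) * KK F N x0 x0)
    (hMN : 1 - θ ≤ KK F N x0 x0 * N) :
    ∃ H : Finset G, IsSub H ∧ (H.card : ℝ) = N ∧ cs x0 H ⊆ F := by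
  have hN := h.Npos
  have hm1 := h.m1
  have he := h.eps0
  have hsm := h.small
  have h2 := h.two
  have hm3 : (1 : ℝ) ≤ m ^ 3 := one_le_pow₀ hm1
  have hm3e : m ^ 3 * ε ≤ 1 / 2 ^ 24 := by
    rw [le_div_iff₀ (by positivity)]
    nlinarith
  have hee : ε ≤ 1 / 2 ^ 24 := by
    have : ε ≤ m ^ 3 * ε := by nlinarith
    linarith
  obtain ⟨M, hM⟩ : ∃ M, KK F N x0 x0 = M := ⟨_, rfl⟩
  rw [hM] at hmax hMN
  have hMN9 : 999 / 1000 ≤ M * N := by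
    have h1 : θ ≤ 9 * (1 / 2 ^ 24) := by nlinarith
    norm_num at h1 ⊢
    linarith
  have hM0 : 0 < M := by
    by_contra hcon
    have : M * N ≤ 0 := mul_nonpos_of_nonpos_of_nonneg (not_lt.1 hcon) hN.le
    linarith
  have hMle : M * N ≤ m * (1 + ε) := by
    have h1 := KK_le h x0 x0
    have h3 := TT_le h x0 x0
    rw [hM] at h1
    have h4 : M ≤ (m * (1 + ε)) / N := by
      refine h1.trans ?_
      have h5 : m * (1 + ε) / N = m / N + ε * m / N := by ring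
      rw [h5]
      linarith
    exact (le_div_iff₀ hN).1 h4
  obtain ⟨C, hCF, hx0C, hc, hT⟩ := cluster h hx hM hθ0 hθ hmax hMN
  have hout := tri_out h hMN9 hCF hc hT
  have hE := tri_in h hM0 hCF hc hT hout
  obtain ⟨H, hH, hHc, hHs, y, hyC, hyH⟩ := sub_of_energy h2 ⟨x0, hx0C⟩ hE
  have hHM : 854 / 1000 ≤ (H.card : ℝ) * M := by
    have h1 : 856 / 1000 * (C.card : ℝ) * M ≤ (H.card : ℝ) * M :=
      mul_le_mul_of_nonneg_right hHc hM0.le
    nlinarith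
  have hyF : 5 / 6 * (H.card : ℝ) ≤ ((F ∩ cs y H).card : ℝ) := by
    refine hyH.trans ?_
    exact_mod_cast card_le_card (inter_subset_inter_right hCF)
  have hb1 : N ^ 2 * ε < 5 / 9 * (H.card : ℝ) ^ 2 := by
    have h1 : (M * N) ^ 2 * ε ≤ 1 / 10 := by
      have h3 : (M * N) ^ 2 ≤ (m * (1 + ε)) ^ 2 := by
        have h4 : 0 ≤ M * N := (mul_pos hM0 hN).le
        exact pow_le_pow_left₀ h4 hMle 2
      have h5 : (M * N) ^ 2 * ε ≤ (m * (1 + ε)) ^ 2 * ε := mul_le_mul_of_nonneg_right h3 he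
      have h6 : (m * (1 + ε)) ^ 2 * ε = (m ^ 2 * ε) * (1 + ε) ^ 2 := by ring
      have h7 : m ^ 2 * ε ≤ 1 / 2 ^ 24 := by
        have h8 : m ^ 2 ≤ m ^ 3 := pow_le_pow_right₀ hm1 (by norm_num)
        have h9 : m ^ 2 * ε ≤ m ^ 3 * ε := mul_le_mul_of_nonneg_right h8 he
        linarith
      have h10 : (1 + ε) ^ 2 ≤ 4 := by
        have h11 : 1 + ε ≤ 2 := by
          norm_num at hee ⊢
          linarith
        nlinarith
      have h12 : (m ^ 2 * ε) * (1 + ε) ^ 2 ≤ (1 / 2 ^ 24) * 4 :=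
        mul_le_mul h7 h10 (by positivity) (by positivity)
      rw [h6] at h5
      norm_num at h12 h5 ⊢
      linarith
    have h3 : 1 / 4 ≤ 5 / 9 * ((H.card : ℝ) * M) ^ 2 := by
      nlinarith
    have h4 : (N ^ 2 * ε) * M ^ 2 < (5 / 9 * (H.card : ℝ) ^ 2) * M ^ 2 := by
      have h5 : (N ^ 2 * ε) * M ^ 2 = (M * N) ^ 2 * ε := by ring
      have h6 : (5 / 9 * (H.card : ℝ) ^ 2) * M ^ 2 = 5 / 9 * ((H.card : ℝ) * M) ^ 2 := by ring
      rw [h5, h6]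
      linarith
    exact lt_of_mul_lt_mul_right h4 (sq_nonneg M)
  have hyF2 : cs y H ⊆ F := fill h hH hyF hb1
  have hTr : ∀ u v : G, TT F N u v * N ^ 2 = rr F (u + v) := by
    intro u v
    unfold TT
    field_simp
  have hrs : ∀ s ∈ H, 993 / 1000 * M * N ^ 2 ≤ rr F s := by
    intro s hs
    obtain ⟨u, huC, husC⟩ := hHs s hs
    have h1 := hT u huC (u + s) husC
    have h3 := hTr u (u + s)
    have h4 : u + (u + s) = s := by rw [← add_assoc, h2, zero_add]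
    rw [h4] at h3
    rw [← h3]
    exact mul_le_mul_of_nonneg_right h1 (sq_nonneg N)
  have hD : 84 / 100 * N ^ 2 ≤ ∑ s ∈ H, rr F s := by
    have h1 : ∑ s ∈ H, 993 / 1000 * M * N ^ 2 ≤ ∑ s ∈ H, rr F s := sum_le_sum hrs
    rw [sum_const, nsmul_eq_mul] at h1
    have h3 : (H.card : ℝ) * (993 / 1000 * M * N ^ 2) =
        993 / 1000 * ((H.card : ℝ) * M) * N ^ 2 := by ring
    rw [h3] at h1
    refine le_trans ?_ h1
    refine mul_le_mul_of_nonneg_right ?_ (sq_nonneg N)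
    linarith
  obtain ⟨a, ha⟩ := sub_pow h2 hH
  have hHN : (H.card : ℝ) = N := size_eq h hH hyF2 hD ha hb
  have hxs : ∀ u ∈ C, 3 / 4 * N ≤ rr F (x0 + u) := by
    intro u hu
    have h1 := hT x0 hx0C u hu
    have h3 := hTr x0 u
    rw [← h3]
    have h4 : 993 / 1000 * M * N ^ 2 ≤ TT F N x0 u * N ^ 2 :=
      mul_le_mul_of_nonneg_right h1 (sq_nonneg N)
    refine le_trans ?_ h4
    have h5 : 993 / 1000 * M * N ^ 2 = 993 / 1000 * (M * N) * N := by ring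
    rw [h5]
    refine mul_le_mul_of_nonneg_right ?_ hN.le
    linarith
  have hmem : x0 ∈ cs y H := mem_coset h hH hHN hyF2 hyH hxs
  refine ⟨H, hH, hHN, fun x hx' => hyF2 ?_⟩
  unfold cs at hx' hmem ⊢
  rw [mem_filter] at hx' hmem ⊢
  refine ⟨mem_univ _, ?_⟩
  have h1 := hH.2 _ hx'.2 _ hmem.2
  have h3 : x + x0 + (x0 + y) = x + y := by
    calc x + x0 + (x0 + y) = x + (x0 + x0) + y := by abel
      _ = x + y := by rw [h2, add_zero]
  rwa [h3] at h1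

end Pool.Agent.Work.MP_79d924_lc.FS
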