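import Pool.Agent.Work.MP_79d924_lc.FS.Defs

/-!
MODULE Pw2 (S-M).  Subgroups: cardinality a power of two, adding one element, intersections.

`sub_pow`: induction on the cardinality, or: `H` is the carrier of an `AddSubgroup` all elements of which have order at most 2,
so it is a 2-group (`IsPGroup.iff_card` for `Multiplicative`, or a `ZMod 2`-module, `Module.card_eq_pow_finrank`).
`sub_adjoin`: `H ∪ (q + H)` is a subgroup of cardinality `2 |H|` if `q ∉ H`.
`sub_inter_le`: `H1 ∩ H2` is a subgroup of `H1`; if `H1 ⊄ H2` there is `q ∈ H1 \ H2`, and `(H1 ∩ H2) ∪ (q + (H1 ∩ H2)) ⊆ H1` has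
`2 |H1 ∩ H2|` elements.
-/

set_option autoImplicit false

namespace Pool.Agent.Work.MP_79d924_lc.FS

open Finset

variable {G : Type} [AddCommGroup G] [Fintype G] [DecidableEq G]

theorem sub_pow (two : ∀ x : G, x + x = 0) {H : Finset G} (hH : IsSub H) :
    ∃ a : ℕ, H.card = 2 ^ a := by
  classical
  let K : AddSubgroup G :=
    { carrier := (H : Set G)
      add_mem' := fun {a b} ha hb => hH.2 a ha b hb
      zero_mem' := hH.1
      neg_mem' := fun {a} ha => by
        have h1 : -a = a := by
          rw [neg_eq_iff_add_eq_zero]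
          exact two a
        rw [h1]
        exact ha }
  letI : Module (ZMod 2) K := AddCommGroup.zmodModule (n := 2) (fun x => by
    rw [two_nsmul]
    exact Subtype.ext (two x.1))
  have hfin : Finite K := by
    show Finite (H : Set G)
    exact Finset.finite_toSet H
  letI : Fintype K := Fintype.ofFinite K
  refine ⟨Module.finrank (ZMod 2) K, ?_⟩
  have h1 := Module.card_eq_pow_finrank (K := ZMod 2) (V := K)
  rw [ZMod.card 2] at h1
  rw [← h1]
  have h2 : Nat.card K = H.card := by
    show Nat.card ((H : Set G) : Type) = H.card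
    rw [Nat.card_coe_set_eq, Set.ncard_coe_finset]
  rw [← Nat.card_eq_fintype_card, h2]

theorem sub_adjoin (two : ∀ x : G, x + x = 0) {H : Finset G} (hH : IsSub H) {q : G}
    (hq : q ∉ H) : IsSub (H ∪ cs q H) ∧ Disjoint H (cs q H) ∧
      (H ∪ cs q H).card = 2 * H.card := by
  have hd : Disjoint H (cs q H) := by
    rw [Finset.disjoint_left]
    intro x hx hx2
    simp only [cs, mem_filter, mem_univ, true_and] at hx2
    apply hq
    have h1 : q = x + (x + q) := by
      rw [← add_assoc, two x, zero_add]
    rw [h1]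
    exact hH.2 x hx _ hx2
  have hc : (cs q H).card = H.card := by
    have h1 : cs q H = H.image (fun x => x + q) := by
      ext x
      simp only [cs, mem_filter, mem_univ, true_and, mem_image]
      constructor
      · intro hx
        exact ⟨x + q, hx, by rw [add_assoc, two q, add_zero]⟩
      · rintro ⟨y, hy, rfl⟩
        rw [add_assoc, two q, add_zero]
        exact hy
    rw [h1, Finset.card_image_of_injective _ (add_left_injective q)]
  refine ⟨⟨mem_union_left _ hH.1, ?_⟩, hd, ?_⟩
  · intro a ha b hb
    rw [mem_union] at ha hb ⊢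
    simp only [cs, mem_filter, mem_univ, true_and] at ha hb ⊢
    rcases ha with ha | ha <;> rcases hb with hb | hb
    · exact Or.inl (hH.2 a ha b hb)
    · right
      rw [add_assoc]
      exact hH.2 a ha _ hb
    · right
      have h1 : a + b + q = (a + q) + b := by abel
      rw [h1]
      exact hH.2 _ ha b hb
    · left
      have h1 : a + b = (a + q) + (b + q) := by
        have h2 : (a + q) + (b + q) = a + b + (q + q) := by abel
        rw [h2, two q, add_zero]
      rw [h1]
      exact hH.2 _ ha _ hb
  · rw [Finset.card_union_of_disjoint hd, hc]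
    ring

theorem sub_inter_le (two : ∀ x : G, x + x = 0) {H₁ H₂ : Finset G} (h1 : IsSub H₁)
    (h2 : IsSub H₂) (hne : ¬ H₁ ⊆ H₂) : 2 * (H₁ ∩ H₂).card ≤ H₁.card := by
  rw [Finset.not_subset] at hne
  obtain ⟨q, hq1, hq2⟩ := hne
  have hI : IsSub (H₁ ∩ H₂) := by
    refine ⟨mem_inter.mpr ⟨h1.1, h2.1⟩, ?_⟩
    intro a ha b hb
    rw [mem_inter] at ha hb ⊢
    exact ⟨h1.2 a ha.1 b hb.1, h2.2 a ha.2 b hb.2⟩
  have hq : q ∉ H₁ ∩ H₂ := fun h => hq2 (mem_inter.mp h).2
  obtain ⟨-, -, hc⟩ := sub_adjoin two hI hq
  rw [← hc]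
  apply Finset.card_le_card
  intro x hx
  rw [mem_union] at hx
  rcases hx with hx | hx
  · exact (mem_inter.mp hx).1
  · simp only [cs, mem_filter, mem_univ, true_and, mem_inter] at hx
    have h3 : x = (x + q) + q := by rw [add_assoc, two q, add_zero]
    rw [h3]
    exact h1.2 _ hx.1 q hq1

end Pool.Agent.Work.MP_79d924_lc.FS
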