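import Pool.Agent.Work.MP_79d924_lc.FS.Bas

/-!
MODULE TKA (M).  The matrices `T` and `K = T^2`.

`TT_row`: `clo` with `ind F x = 1`.
`KK_le`: `N^4 K(x,y) ≤ ∑_t rr (x+t) rr (t+y) = ∑_{a ∈ F} ∑_{b ∈ F} rr (a + (x+y) + b) = ∑_{a ∈ F} N^2 (ind F (a + (x+y)) + ε)
= N^2 (rr (x+y) + ε m N)` (`conv`, `clo`, `rr_eq`).
`KK_row`: exchange the sums, `TT_row` twice.
`dl_row`: `(1 + ε) + ε m^2 - (1 + ε)^2 ≤ ε m^2`.
`KK_am`: `2 a b ≤ a^2 + b^2`.
`tr_ge`: `N^4 ∑_{x ∈ F} K(x,x) = ∑_{x,t ∈ F} rr (x+t)^2 = ∑_z rr z * rr z^2 ≥ m N^4` (`sum_rr`, `cub`).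
`sum_sq`: `conv` with `x = y = 0`, `clo`, `∑_{a ∈ F} ind F a = |F|`.
-/

set_option autoImplicit false

namespace Pool.Agent.Work.MP_79d924_lc.FS

open Finset

variable {G : Type} [AddCommGroup G] [Fintype G] [DecidableEq G] {F : Finset G} {N m ε : ℝ}

theorem TT_nonneg (F : Finset G) (N : ℝ) (x y : G) : 0 ≤ TT F N x y := by
  exact div_nonneg (rr_nonneg F _) (sq_nonneg N)

theorem TT_comm (F : Finset G) (N : ℝ) (x y : G) : TT F N x y = TT F N y x := by
  unfold TT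
  rw [add_comm x y]

theorem TT_le (h : Core F N m ε) (x y : G) : TT F N x y ≤ m / N := by
  have hN := h.Npos
  have h1 : TT F N x y ≤ (F.card : ℝ) / N ^ 2 := by
    unfold TT
    exact div_le_div_of_nonneg_right (rr_le F _) (sq_nonneg N)
  have h2 : (F.card : ℝ) / N ^ 2 = m / N := by
    rw [h.card]
    field_simp
  rw [← h2]
  exact h1

theorem TT_row (h : Core F N m ε) {x : G} (hx : x ∈ F) : ∑ y ∈ F, TT F N x y = 1 + ε := by
  have hN := h.Npos
  unfold TT
  rw [← Finset.sum_div, h.clo x]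
  have h1 : ind F x = 1 := by
    unfold ind
    rw [if_pos hx]
  rw [h1]
  field_simp

theorem KK_nonneg (F : Finset G) (N : ℝ) (x y : G) : 0 ≤ KK F N x y := by
  unfold KK
  exact Finset.sum_nonneg (fun t _ => mul_nonneg (TT_nonneg F N x t) (TT_nonneg F N t y))

theorem KK_comm (F : Finset G) (N : ℝ) (x y : G) : KK F N x y = KK F N y x := by
  unfold KK
  refine Finset.sum_congr rfl (fun t _ => ?_)
  rw [TT_comm F N x t, TT_comm F N t y, mul_comm]

theorem KK_le (h : Core F N m ε) (x y : G) : KK F N x y ≤ TT F N x y + ε * m / N := by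
  have hN := h.Npos
  have h1 : KK F N x y = (∑ t ∈ F, rr F (x + t) * rr F (t + y)) / N ^ 4 := by
    unfold KK TT
    rw [Finset.sum_div]
    refine Finset.sum_congr rfl (fun t _ => ?_)
    field_simp
  have h2 : ∑ t ∈ F, rr F (x + t) * rr F (t + y) ≤ ∑ t, rr F (x + t) * rr F (t + y) := by
    refine Finset.sum_le_sum_of_subset_of_nonneg (Finset.subset_univ F) (fun t _ _ => ?_)
    exact mul_nonneg (rr_nonneg F _) (rr_nonneg F _)
  have h3 : ∑ t, rr F (x + t) * rr F (t + y) = N ^ 2 * (rr F (x + y) + ε * (m * N)) := by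
    rw [conv h.two F x y]
    have h4 : ∀ a ∈ F, ∑ b ∈ F, rr F (a + (x + y) + b) = N ^ 2 * (ind F (a + (x + y)) + ε) :=
      fun a _ => h.clo (a + (x + y))
    rw [Finset.sum_congr rfl h4, ← Finset.mul_sum, Finset.sum_add_distrib, ← rr_eq F (x + y),
      Finset.sum_const, nsmul_eq_mul, h.card]
    ring
  rw [h1]
  have h5 : TT F N x y + ε * m / N = (N ^ 2 * (rr F (x + y) + ε * (m * N))) / N ^ 4 := by
    unfold TT
    field_simp
  rw [h5, ← h3]
  exact div_le_div_of_nonneg_right h2 (by positivity)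

theorem KK_row (h : Core F N m ε) {x : G} (hx : x ∈ F) :
    ∑ y ∈ F, KK F N x y = (1 + ε) ^ 2 := by
  unfold KK
  rw [Finset.sum_comm]
  have h1 : ∀ t ∈ F, ∑ y ∈ F, TT F N x t * TT F N t y = TT F N x t * (1 + ε) := by
    intro t ht
    rw [← Finset.mul_sum, TT_row h ht]
  rw [Finset.sum_congr rfl h1, ← Finset.sum_mul, TT_row h hx]
  ring

theorem dl_row (h : Core F N m ε) {x : G} (hx : x ∈ F) :
    ∑ y ∈ F, (TT F N x y + ε * m / N - KK F N x y) ≤ ε * m ^ 2 := by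
  have hN := h.Npos
  have he := h.eps0
  rw [Finset.sum_sub_distrib, Finset.sum_add_distrib, TT_row h hx, KK_row h hx, Finset.sum_const,
    nsmul_eq_mul, h.card]
  have h1 : m * N * (ε * m / N) = ε * m ^ 2 := by
    field_simp
  rw [h1]
  nlinarith [mul_nonneg he he]

theorem KK_am (F : Finset G) (N : ℝ) (x y : G) :
    KK F N x y ≤ (KK F N x x + KK F N y y) / 2 := by
  unfold KK
  rw [← Finset.sum_add_distrib, Finset.sum_div]
  refine Finset.sum_le_sum (fun t _ => ?_)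
  rw [TT_comm F N t x, TT_comm F N t y]
  nlinarith [sq_nonneg (TT F N x t - TT F N y t)]

theorem tr_ge (h : Core F N m ε) : m ≤ ∑ x ∈ F, KK F N x x := by
  have hN := h.Npos
  have h1 : ∑ x ∈ F, KK F N x x = (∑ x ∈ F, ∑ t ∈ F, rr F (x + t) ^ 2) / N ^ 4 := by
    unfold KK TT
    rw [Finset.sum_div]
    refine Finset.sum_congr rfl (fun x _ => ?_)
    rw [Finset.sum_div]
    refine Finset.sum_congr rfl (fun t _ => ?_)
    rw [add_comm t x]
    field_simp
  have h2 : ∑ x ∈ F, ∑ t ∈ F, rr F (x + t) ^ 2 = ∑ z, rr F z ^ 3 := by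
    rw [sum_rr h.two F (fun z => rr F z ^ 2)]
    refine Finset.sum_congr rfl (fun z _ => ?_)
    ring
  rw [h1, h2, le_div_iff₀ (by positivity)]
  exact h.cub

theorem sum_sq (h : Core F N m ε) : ∑ z, rr F z ^ 2 = m * N ^ 3 * (1 + ε) := by
  have h0 := conv h.two F 0 0
  have h1 : ∑ t, rr F (0 + t) * rr F (t + 0) = ∑ z, rr F z ^ 2 := by
    refine Finset.sum_congr rfl (fun z _ => ?_)
    rw [zero_add, add_zero]
    ring
  have h2 : ∑ a ∈ F, ∑ b ∈ F, rr F (a + (0 + 0) + b) = m * N ^ 3 * (1 + ε) := by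
    have h4 : ∀ a ∈ F, ∑ b ∈ F, rr F (a + (0 + 0) + b) = N ^ 2 * (1 + ε) := by
      intro a ha
      rw [h.clo (a + (0 + 0))]
      have h5 : ind F (a + (0 + 0)) = 1 := by
        unfold ind
        rw [if_pos (by simpa using ha)]
      rw [h5]
    rw [Finset.sum_congr rfl h4, Finset.sum_const, nsmul_eq_mul, h.card]
    ring
  rw [← h1, h0, h2]

end Pool.Agent.Work.MP_79d924_lc.FS
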